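import Pool.Agent.LibZO31.Defs
import Pool.Agent.LibHF31.A5
import Pool.Agent.LibHF31.A5b
import Pool.Agent.LibHF31.A6
import Pool.Agent.LibHF31.A8

/-!
[ZO A1] the scaled derived cyclic identity.

PLAN.  Copy the proof of `Pool.Agent.HF.cyclic` (`LibHF31/A9.lean`) with `Z i j = zt (seg x i j) / (y^#2 z^#3)` and `A i j = (-1)^(j-i) S (seg x i j) / (y^#2 z^#3)` (counts of `seg x i j`), i.e.
multiply the old `Z`, `A` by the multiplicative factor `g (seg x i j)`, `g u = (y ^ u.count 2 * z ^ u.count 3)⁻¹`, `g (u ++ v) = g u * g v`, `seg x i j = seg x i l ++ seg x l j`: the hypotheses `h1`, `h2`, `hZr`, `hAr` of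
`cyclic_abs` are multiplied by `g (seg x i j)`, and `hc` by `g L` (`seg x k (k + r)` is a rotation of `L`, so it has the same counts).  At the end multiply by `(g L)⁻¹ = y^#2 z^#3` of `L`:
`g (rest) * (g L)⁻¹ = (g (arc))⁻¹`.  `Sb 1 u = S u` for `u` in `W23` (`1 ^ _ = 1`): `Sb_one`.
-/

set_option autoImplicit false

namespace Pool.Agent.ZO

open scoped ENNReal
open Finset
open Pool.Agent.HF

/-- `y ^ (number of twos) * z ^ (number of threes)`. -/
noncomputable def mon (y z : ℂ) (u : List ℕ) : ℂ := y ^ u.count 2 * z ^ u.count 3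

theorem Sb_one (u : List ℕ) : Sb 1 u = S u := by
  simp [Sb, S]

private theorem a1_take (x : ℕ → ℕ) {i l j : ℕ} (hil : i ≤ l) (hlj : l ≤ j) :
    (seg x i j).take (l - i) = seg x i l := by
  unfold seg
  rw [← List.map_take, List.take_range, min_eq_left (by omega)]

private theorem a1_drop (x : ℕ → ℕ) {i l j : ℕ} (hil : i ≤ l) (hlj : l ≤ j) :
    (seg x i j).drop (l - i) = seg x l j := by
  unfold seg
  apply List.ext_getElem
  · simp; omega
  · intro n h1 h2
    simp only [List.getElem_drop, List.getElem_map, List.getElem_range]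
    congr 1; omega

private theorem a1_length (x : ℕ → ℕ) (i j : ℕ) : (seg x i j).length = j - i := by
  simp [seg]

private theorem a1_per (x : ℕ → ℕ) (r : ℕ) (hx : ∀ i, x (i + r) = x i) (i j : ℕ) :
    seg x (i + r) (j + r) = seg x i j := by
  unfold seg
  rw [Nat.add_sub_add_right]
  refine List.map_congr_left fun t _ => ?_
  rw [← hx (i + t)]
  congr 1; omega

private theorem a1_sum_Icc (f : ℕ → ℂ) {i j : ℕ} (hij : i ≤ j) :
    ∑ l ∈ Icc i j, f l = ∑ n ∈ range (j - i + 1), f (i + n) := by
  have : Icc i j = Ico i (j + 1) := by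
    ext x; simp only [mem_Icc, mem_Ico]; omega
  rw [this, Finset.sum_Ico_eq_sum_range]
  congr 2; omega

private theorem a1_par (a b : ℕ) (h : Even (a + b)) : (-1 : ℂ) ^ a = (-1) ^ b := by
  rcases Nat.even_or_odd a with ha | ha
  · have hb : Even b := (Nat.even_add.1 h).1 ha
    rw [ha.neg_one_pow, hb.neg_one_pow]
  · have hb : Odd b := by
      rw [← Nat.not_even_iff_odd] at ha ⊢
      exact fun hb => ha ((Nat.even_add.1 h).2 hb)
    rw [ha.neg_one_pow, hb.neg_one_pow]

private theorem a1_zt_nil : zt [] = 1 := by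
  rw [zt_eq_hG]; simp [hG]

private theorem a1_S_nil : S [] = 1 := by
  simp [S, ph]

private theorem a1_mon_append (y z : ℂ) (u v : List ℕ) :
    mon y z (u ++ v) = mon y z u * mon y z v := by
  simp only [mon, List.count_append, pow_add]
  ring

private theorem a1_mon_ne (y z : ℂ) (hy : y ≠ 0) (hz : z ≠ 0) (u : List ℕ) : mon y z u ≠ 0 :=
  mul_ne_zero (pow_ne_zero _ hy) (pow_ne_zero _ hz)

private theorem a1_seg_append (x : ℕ → ℕ) {i l j : ℕ} (hil : i ≤ l) (hlj : l ≤ j) :
    seg x i j = seg x i l ++ seg x l j := by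
  rw [← a1_take x hil hlj, ← a1_drop x hil hlj, List.take_append_drop]

theorem cyclic_scaled (d : Derivation ℤ ℂ ℂ) (y z : ℂ) (hy : y ≠ 0) (hz : z ≠ 0) :
    CIb 1 (fun u => mon y z u * d ((zt u : ℂ) / mon y z u))
      (fun L => mon y z L * d ((zt [L.sum] : ℂ) / mon y z L)) := by
  intro L h0 hW
  have hL : ∀ x ∈ L, 2 ≤ x := fun x hx => by rcases hW x hx with h | h <;> omega
  obtain ⟨r, hr⟩ : ∃ r, r = L.length := ⟨_, rfl⟩
  have hr1 : 1 ≤ r := by
    rw [hr]; exact List.length_pos_iff.2 h0
  obtain ⟨x, hx⟩ : ∃ x : ℕ → ℕ, x = fun i => L.getD (i % r) 0 := ⟨_, rfl⟩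
  have hxr : ∀ i, x (i + r) = x i := by
    intro i; rw [hx]; simp only [Nat.add_mod_right]
  have hx2 : ∀ i, 2 ≤ x i := by
    intro i
    rw [hx]
    have hlt : i % r < L.length := by rw [← hr]; exact Nat.mod_lt _ hr1
    simp only
    rw [List.getD_eq_getElem _ _ hlt]
    exact hL _ (List.getElem_mem hlt)
  have hseg2 : ∀ i j, ∀ y ∈ seg x i j, 2 ≤ y := by
    intro i j y hy
    unfold seg at hy
    rw [List.mem_map] at hy
    obtain ⟨t, _, rfl⟩ := hy
    exact hx2 _
  have harc : ∀ i n, arc L i n = seg x i (i + n) := by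
    intro i n
    unfold arc seg
    rw [Nat.add_sub_cancel_left, hx, hr]
  obtain ⟨Z0, hZd⟩ : ∃ Z : ℕ → ℕ → ℂ, Z = fun i j => (zt (seg x i j) : ℂ) := ⟨_, rfl⟩
  obtain ⟨A0, hAd⟩ : ∃ A : ℕ → ℕ → ℂ, A = fun i j => (-1) ^ (j - i) * (S (seg x i j) : ℂ) :=
    ⟨_, rfl⟩
  have hseg0 : ∀ i, seg x i i = [] := by intro i; simp [seg]
  have hZ0 : ∀ i, Z0 i i = 1 := by
    intro i; rw [hZd]; simp only [hseg0, a1_zt_nil]; simp
  have hA0 : ∀ i, A0 i i = 1 := by
    intro i; rw [hAd]; simp only [hseg0, a1_S_nil]; simp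
  have hne : ∀ i j, i < j → seg x i j ≠ [] := by
    intro i j hij h
    have := congrArg List.length h
    rw [a1_length] at this
    simp at this; omega
  have h10 : ∀ i j, i < j → ∑ l ∈ Icc i j, Z0 i l * A0 l j = 0 := by
    intro i j hij
    have key := ANl (seg x i j) (hseg2 i j) (hne i j hij)
    rw [a1_length] at key
    have key2 : (-1 : ℂ) ^ (j - i) * (∑ n ∈ range (j - i + 1), (((-1 : ℝ) ^ n *
        (zt ((seg x i j).take n) * S ((seg x i j).drop n)) : ℝ) : ℂ)) = 0 := by
      rw [← Complex.ofReal_sum, key]; simp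
    rw [a1_sum_Icc _ hij.le, ← key2, Finset.mul_sum]
    refine Finset.sum_congr rfl fun n hn => ?_
    rw [Finset.mem_range] at hn
    have t1 := a1_take x (i := i) (l := i + n) (j := j) (by omega) (by omega)
    have t2 := a1_drop x (i := i) (l := i + n) (j := j) (by omega) (by omega)
    rw [Nat.add_sub_cancel_left] at t1 t2
    rw [t1, t2, hZd, hAd]
    simp only
    push_cast
    have e : (-1 : ℂ) ^ (j - (i + n)) = (-1) ^ (j - i) * (-1) ^ n := by
      rw [← pow_add]
      apply a1_par
      refine ⟨j - i, ?_⟩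
      omega
    rw [e]
    ring
  have h20 : ∀ i j, i < j → ∑ l ∈ Icc i j, A0 i l * Z0 l j = 0 := by
    intro i j hij
    have key := ANr (seg x i j) (hseg2 i j) (hne i j hij)
    rw [a1_length] at key
    have key2 : (∑ n ∈ range (j - i + 1), (((-1 : ℝ) ^ n *
        (S ((seg x i j).take n) * zt ((seg x i j).drop n)) : ℝ) : ℂ)) = 0 := by
      rw [← Complex.ofReal_sum, key]; simp
    rw [a1_sum_Icc _ hij.le, ← key2]
    refine Finset.sum_congr rfl fun n hn => ?_
    rw [Finset.mem_range] at hn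
    have t1 := a1_take x (i := i) (l := i + n) (j := j) (by omega) (by omega)
    have t2 := a1_drop x (i := i) (l := i + n) (j := j) (by omega) (by omega)
    rw [Nat.add_sub_cancel_left] at t1 t2
    rw [t1, t2, hZd, hAd]
    simp only
    push_cast
    rw [Nat.add_sub_cancel_left]
    ring
  have hZr0 : ∀ i j, Z0 (i + r) (j + r) = Z0 i j := by
    intro i j; rw [hZd]; simp only [a1_per x r hxr]
  have hAr0 : ∀ i j, A0 (i + r) (j + r) = A0 i j := by
    intro i j; rw [hAd]; simp only [a1_per x r hxr, Nat.add_sub_add_right]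
  -- the cyclic sum
  have hsum : x (r - 1) + (seg x r (2 * r - 1)).sum = L.sum := by
    have e1 : seg x r (2 * r - 1) = L.take (r - 1) := by
      apply List.ext_getElem
      · rw [a1_length, List.length_take, ← hr]; omega
      · intro n h1 h2
        rw [a1_length] at h1
        unfold seg
        simp only [List.getElem_map, List.getElem_range, List.getElem_take]
        rw [hx]
        simp only
        rw [Nat.add_mod_left, Nat.mod_eq_of_lt (by omega), List.getD_eq_getElem _ _ (by omega)]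
    have e2 : x (r - 1) = (L.drop (r - 1)).sum := by
      rw [List.drop_eq_getElem_cons (by omega : r - 1 < L.length), List.sum_cons,
        List.drop_eq_nil_of_le (by omega), List.sum_nil, add_zero, hx]
      simp only
      rw [Nat.mod_eq_of_lt (by omega), List.getD_eq_getElem _ _ (by omega)]
    rw [e1, e2, add_comm, ← List.sum_append, List.take_append_drop]
  have hc0 : ∑ k ∈ range r, ∑ l ∈ Icc r (k + r), Z0 k l * A0 l (k + r) =
      (-1) ^ (r - 1) * (zt [L.sum] : ℂ) := by
    have key := C0 (x (r - 1)) (hx2 _) (seg x r (2 * r - 1)) (hseg2 _ _)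
    rw [a1_length, hsum, show 2 * r - 1 - r = r - 1 by omega, Nat.sub_add_cancel hr1] at key
    rw [← key, Complex.ofReal_sum, Finset.mul_sum]
    refine Finset.sum_congr rfl fun k hk => ?_
    rw [Finset.mem_range] at hk
    rw [a1_sum_Icc _ (by omega : r ≤ k + r), Nat.add_sub_cancel, Complex.ofReal_sum,
      Finset.mul_sum]
    refine Finset.sum_congr rfl fun j hj => ?_
    rw [Finset.mem_range] at hj
    have t1 : seg x k (r + j) =
        (seg x r (2 * r - 1)).drop k ++ x (r - 1) :: (seg x r (2 * r - 1)).take j := by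
      have a1 := a1_drop x (i := r) (l := r + k) (j := 2 * r - 1) (by omega) (by omega)
      have a2 := a1_take x (i := r) (l := r + j) (j := 2 * r - 1) (by omega) (by omega)
      rw [Nat.add_sub_cancel_left] at a1 a2
      have a3 : seg x (r + k) (2 * r - 1) = seg x k (r - 1) := by
        rw [← a1_per x r hxr k (r - 1)]
        congr 1 <;> omega
      rw [a1, a2, a3]
      apply List.ext_getElem
      · simp [a1_length]; omega
      · intro n g1 g2
        rw [a1_length] at g1
        rw [List.getElem_append]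
        split_ifs with hn
        · unfold seg; simp
        · rw [a1_length] at hn
          rw [List.getElem_cons]
          split_ifs with hn2
          · unfold seg; simp only [List.getElem_map, List.getElem_range]
            rw [a1_length] at hn2
            congr 1; omega
          · unfold seg at hn2 ⊢
            simp only [List.getElem_map, List.getElem_range, List.length_map, List.length_range]
              at hn2 ⊢
            congr 1; omega
    have t2 : seg x (r + j) (k + r) = ((seg x r (2 * r - 1)).take k).drop j := by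
      have a2 := a1_take x (i := r) (l := r + k) (j := 2 * r - 1) (by omega) (by omega)
      rw [Nat.add_sub_cancel_left] at a2
      rw [a2]
      have a1 := a1_drop x (i := r) (l := r + j) (j := r + k) (by omega) (by omega)
      rw [Nat.add_sub_cancel_left] at a1
      rw [a1, add_comm k r]
    rw [hZd, hAd]
    simp only
    rw [t1, t2]
    push_cast
    have e : (-1 : ℂ) ^ (k + r - (r + j)) = (-1) ^ (r - 1) * (-1) ^ (r - 1 - k + j) := by
      rw [← pow_add]
      apply a1_par
      refine ⟨r - 1, ?_⟩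
      omega
    rw [e]
    ring
  -- the scaled functions
  obtain ⟨g, hg⟩ : ∃ g : List ℕ → ℂ, g = fun u => (mon y z u)⁻¹ := ⟨_, rfl⟩
  have hgs : ∀ i l j, i ≤ l → l ≤ j → g (seg x i l) * g (seg x l j) = g (seg x i j) := by
    intro i l j hil hlj
    rw [hg, a1_seg_append x hil hlj]
    simp only
    rw [a1_mon_append, mul_inv]
  have hg0 : ∀ i, g (seg x i i) = 1 := by
    intro i
    rw [hg, hseg0]
    simp [mon]
  have hgr : ∀ i j, g (seg x (i + r) (j + r)) = g (seg x i j) := by
    intro i j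
    rw [a1_per x r hxr]
  have hgL0 : seg x 0 r = L := by
    apply List.ext_getElem
    · rw [a1_length, ← hr]; omega
    · intro n g1 g2
      unfold seg
      simp only [List.getElem_map, List.getElem_range]
      rw [hx]
      simp only
      rw [zero_add, Nat.mod_eq_of_lt (by omega), List.getD_eq_getElem _ _ (by omega)]
  have hgL : ∀ k, k ≤ r → g (seg x k (k + r)) = g L := by
    intro k hk
    have e1 := hgr 0 k
    rw [zero_add] at e1
    rw [← hgs k r (k + r) hk (by omega), e1, mul_comm, hgs 0 k r (by omega) hk, hgL0]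
  obtain ⟨Z, hZs⟩ : ∃ Z : ℕ → ℕ → ℂ, Z = fun i j => Z0 i j * g (seg x i j) := ⟨_, rfl⟩
  obtain ⟨A, hAs⟩ : ∃ A : ℕ → ℕ → ℂ, A = fun i j => A0 i j * g (seg x i j) := ⟨_, rfl⟩
  have hZ : ∀ i, Z i i = 1 := by
    intro i; rw [hZs]; simp only [hZ0, hg0, mul_one]
  have hA : ∀ i, A i i = 1 := by
    intro i; rw [hAs]; simp only [hA0, hg0, mul_one]
  have h1 : ∀ i j, i < j → ∑ l ∈ Icc i j, Z i l * A l j = 0 := by
    intro i j hij
    have e : ∑ l ∈ Icc i j, Z i l * A l j = (∑ l ∈ Icc i j, Z0 i l * A0 l j) * g (seg x i j) := by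
      rw [Finset.sum_mul]
      refine Finset.sum_congr rfl fun l hl => ?_
      rw [Finset.mem_Icc] at hl
      rw [← hgs i l j hl.1 hl.2, hZs, hAs]
      ring
    rw [e, h10 i j hij, zero_mul]
  have h2 : ∀ i j, i < j → ∑ l ∈ Icc i j, A i l * Z l j = 0 := by
    intro i j hij
    have e : ∑ l ∈ Icc i j, A i l * Z l j = (∑ l ∈ Icc i j, A0 i l * Z0 l j) * g (seg x i j) := by
      rw [Finset.sum_mul]
      refine Finset.sum_congr rfl fun l hl => ?_
      rw [Finset.mem_Icc] at hl
      rw [← hgs i l j hl.1 hl.2, hZs, hAs]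
      ring
    rw [e, h20 i j hij, zero_mul]
  have hZr : ∀ i j, Z (i + r) (j + r) = Z i j := by
    intro i j; rw [hZs]; simp only [hZr0, hgr]
  have hAr : ∀ i j, A (i + r) (j + r) = A i j := by
    intro i j; rw [hAs]; simp only [hAr0, hgr]
  have hc : ∑ k ∈ range r, ∑ l ∈ Icc r (k + r), Z k l * A l (k + r) =
      (-1) ^ (r - 1) * ((zt [L.sum] : ℂ) / mon y z L) := by
    have e : ∑ k ∈ range r, ∑ l ∈ Icc r (k + r), Z k l * A l (k + r) =
        (∑ k ∈ range r, ∑ l ∈ Icc r (k + r), Z0 k l * A0 l (k + r)) * g L := by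
      rw [Finset.sum_mul]
      refine Finset.sum_congr rfl fun k hk => ?_
      rw [Finset.mem_range] at hk
      rw [Finset.sum_mul]
      refine Finset.sum_congr rfl fun l hl => ?_
      rw [Finset.mem_Icc] at hl
      rw [← hgL k hk.le, ← hgs k l (k + r) (by omega) hl.2, hZs, hAs]
      ring
    rw [e, hc0, hg, div_eq_mul_inv]
    ring
  have fin := cyclic_abs d Z A hZ hA h1 h2 r hr1 hZr hAr _ hc
  have hdc : d ((-1) ^ (r - 1) * ((zt [L.sum] : ℂ) / mon y z L)) =
      (-1) ^ (r - 1) * d ((zt [L.sum] : ℂ) / mon y z L) := by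
    rcases neg_one_pow_eq_or ℂ (r - 1) with h | h
    · rw [h, one_mul, one_mul]
    · rw [h, neg_one_mul, neg_one_mul, map_neg]
  rw [hdc] at fin
  have fin2 : d ((zt [L.sum] : ℂ) / mon y z L) = (-1) ^ (r - 1) *
      ∑ k ∈ range r, ∑ l ∈ Ioc k (k + r), d (Z k l) * A l (k + r) := by
    rw [fin, ← mul_assoc, ← pow_add, ← two_mul, pow_mul]
    simp
  simp only
  rw [fin2, ← hr, Finset.mul_sum, Finset.mul_sum]
  refine Finset.sum_congr rfl fun k hk => ?_
  rw [Finset.mem_range] at hk
  have e8 : Ioc k (k + r) = Ico (k + 1) (k + r + 1) := by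
    ext t; simp only [mem_Ioc, mem_Ico]; omega
  rw [e8, Finset.sum_Ico_eq_sum_range, show k + r + 1 - (k + 1) = r by omega, Finset.mul_sum,
    Finset.mul_sum]
  refine Finset.sum_congr rfl fun n hn => ?_
  rw [Finset.mem_range] at hn
  rw [harc, harc, Sb_one]
  have e9 : k + n + 1 + (r - n - 1) = k + r := by omega
  rw [e9, show k + 1 + n = k + n + 1 by omega, show k + (n + 1) = k + n + 1 by omega]
  have e : (-1 : ℂ) ^ n = (-1) ^ (r - 1) * (-1) ^ (k + r - (k + n + 1)) := by
    rw [← pow_add]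
    apply a1_par
    refine ⟨r - 1, ?_⟩
    omega
  have hZe : Z k (k + n + 1) = (zt (seg x k (k + n + 1)) : ℂ) / mon y z (seg x k (k + n + 1)) := by
    rw [hZs, hZd, hg, div_eq_mul_inv]
  have hAe : mon y z L * A (k + n + 1) (k + r) = mon y z (seg x k (k + n + 1)) *
      ((-1) ^ (k + r - (k + n + 1)) * (S (seg x (k + n + 1) (k + r)) : ℂ)) := by
    have h3 := hgs k (k + n + 1) (k + r) (by omega) (by omega)
    rw [hgL k hk.le] at h3
    have n1 := a1_mon_ne y z hy hz L
    have n2 := a1_mon_ne y z hy hz (seg x k (k + n + 1))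
    have n3 := a1_mon_ne y z hy hz (seg x (k + n + 1) (k + r))
    have h4 : mon y z L * g (seg x (k + n + 1) (k + r)) = mon y z (seg x k (k + n + 1)) := by
      rw [hg] at h3 ⊢
      simp only at h3 ⊢
      field_simp at h3 ⊢
      rw [h3]
      try ring
    rw [hAs]
    simp only
    rw [← h4, hAd]
    ring
  rw [hZe, e]
  calc (-1 : ℂ) ^ (r - 1) * (-1) ^ (k + r - (k + n + 1)) *
      (mon y z (seg x k (k + n + 1)) *
        d ((zt (seg x k (k + n + 1)) : ℂ) / mon y z (seg x k (k + n + 1))) *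
        (S (seg x (k + n + 1) (k + r)) : ℂ)) =
      (-1 : ℂ) ^ (r - 1) * (d ((zt (seg x k (k + n + 1)) : ℂ) / mon y z (seg x k (k + n + 1))) *
        (mon y z (seg x k (k + n + 1)) *
        ((-1) ^ (k + r - (k + n + 1)) * (S (seg x (k + n + 1) (k + r)) : ℂ)))) := by ring
    _ = _ := by
      rw [← hAe]
      ring

theorem PermInv_mon (d : Derivation ℤ ℂ ℂ) (y z : ℂ) :
    PermInv (fun L => mon y z L * d ((zt [L.sum] : ℂ) / mon y z L)) := by
  intro L L' h
  simp only [mon]
  rw [h.sum_eq, h.count_eq, h.count_eq]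

end Pool.Agent.ZO
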