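import Pool.Agent.LibZO31.Defs2
import Pool.Agent.LibZO31.A1
import Pool.Agent.LibHF31.A5

/-!
[ZO A2] the free constant `e`.

PLAN.  `zS_zero`: the antipode relation `∑_{n ≤ |u|} (-1)^n ζ(first n letters) S(rest) = 0`; it is in `LibHF31` (blocks A: `cyclic_abs` hypotheses `hZr`/`hAr` in `A9.lean`, or directly: see how `A9.lean` proves them for
`Z i j`, `A i j`).
`cyclic_e`: `x u = e * mon u * d (ζ u / (e * mon u)) = mon u * d (ζ u / mon u) - (d e / e) ζ u`, `x [] = - d e / e`.  The part `mon u * d (ζ u / mon u)` vanishes for `u = []` and gives `- Y L` by `cyclic_scaled` (shift the index: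
`Finset.sum_range_succ'`), the part `- (d e / e) ζ u` gives `0` for every `i` by `zS_zero` for `u = L.rotate i` (`arc_rot`, `rest_rot`).
-/

set_option autoImplicit false

namespace Pool.Agent.ZO

open scoped ENNReal
open Finset
open Pool.Agent.HF

theorem zS_zero {u : List ℕ} (h0 : u ≠ []) (hu : W23 u) :
    ∑ n ∈ range (u.length + 1), (-1 : ℂ) ^ n * ((zt (u.take n) : ℂ) * (S (u.drop n) : ℂ)) = 0 := by
  have h2 : ∀ x ∈ u, 2 ≤ x := by
    intro x hx
    rcases hu x hx with h | h <;> omega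
  have h := congrArg (fun t : ℝ => (t : ℂ)) (ANl u h2 h0)
  simp only [Complex.ofReal_zero] at h
  rw [← h, Complex.ofReal_sum]
  refine Finset.sum_congr rfl fun n _ => ?_
  push_cast
  ring

theorem cyclic_e (d : Derivation ℤ ℂ ℂ) (e y z : ℂ) (he : e ≠ 0) (hy : y ≠ 0) (hz : z ≠ 0) :
    CIc 1 (fun u => e * mon y z u * d ((zt u : ℂ) / (e * mon y z u)))
      (fun L => -(mon y z L * d ((zt [L.sum] : ℂ) / mon y z L))) := by
  intro L h0 hL
  have hmon : ∀ u, mon y z u ≠ 0 := fun u => mul_ne_zero (pow_ne_zero _ hy) (pow_ne_zero _ hz)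
  have hde : d e⁻¹ = - (d e / e ^ 2) := by
    have h1 : d (e * e⁻¹) = 0 := by
      rw [mul_inv_cancel₀ he, Derivation.map_one_eq_zero]
    rw [Derivation.leibniz, smul_eq_mul, smul_eq_mul] at h1
    field_simp at h1 ⊢
    linear_combination h1
  have hx : ∀ u : List ℕ, e * mon y z u * d ((zt u : ℂ) / (e * mon y z u)) =
      mon y z u * d ((zt u : ℂ) / mon y z u) - d e / e * (zt u : ℂ) := by
    intro u
    have h1 : (zt u : ℂ) / (e * mon y z u) = e⁻¹ * ((zt u : ℂ) / mon y z u) := by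
      field_simp
    rw [h1, Derivation.leibniz, smul_eq_mul, smul_eq_mul, hde]
    have h2 := hmon u
    generalize mon y z u = m at *
    generalize d ((zt u : ℂ) / m) = D at *
    field_simp
    ring
  have hnil : mon y z [] * d ((zt [] : ℂ) / mon y z []) = 0 := by
    have h1 : mon y z [] = 1 := by simp [mon]
    have h2 : zt [] = 1 := by
      rw [zt_eq_hG]
      simp [hG]
    rw [h1, h2]
    simp
  have hrot : ∀ i, i < L.length → W23 (L.rotate i) ∧ L.rotate i ≠ [] := by
    intro i _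
    refine ⟨fun a ha => hL a (List.mem_rotate.1 ha), fun h => h0 (List.rotate_eq_nil_iff.1 h)⟩
  simp only [hx]
  have key := cyclic_scaled d y z hy hz L h0 hL
  simp only at key
  rw [← key, ← Finset.sum_neg_distrib]
  refine Finset.sum_congr rfl fun i hi => ?_
  rw [Finset.mem_range] at hi
  have hA : ∑ n ∈ range (L.length + 1), (-1 : ℂ) ^ n *
      ((zt (arc L i n) : ℂ) * (Sb 1 (arc L (i + n) (L.length - n)) : ℂ)) = 0 := by
    have h1 := zS_zero (hrot i hi).2 (hrot i hi).1
    rw [List.length_rotate] at h1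
    rw [← h1]
    refine Finset.sum_congr rfl fun n hn => ?_
    rw [Finset.mem_range, Nat.lt_succ_iff] at hn
    rw [Sb_one, arc_rot L i n hn, rest_rot L i n hn]
  have hB : ∑ n ∈ range (L.length + 1), (-1 : ℂ) ^ n *
      ((mon y z (arc L i n) * d ((zt (arc L i n) : ℂ) / mon y z (arc L i n))) *
        (Sb 1 (arc L (i + n) (L.length - n)) : ℂ)) =
      - ∑ n ∈ range L.length, (-1 : ℂ) ^ n *
      (mon y z (arc L i (n + 1)) * d ((zt (arc L i (n + 1)) : ℂ) / mon y z (arc L i (n + 1))) *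
        (Sb 1 (arc L (i + n + 1) (L.length - n - 1)) : ℂ)) := by
    rw [Finset.sum_range_succ', ← Finset.sum_neg_distrib]
    have h1 : arc L i 0 = [] := by simp [arc]
    rw [h1, hnil, zero_mul, mul_zero, add_zero]
    refine Finset.sum_congr rfl fun n _ => ?_
    rw [pow_succ, ← add_assoc, Nat.sub_add_eq]
    ring
  have hC : ∑ n ∈ range (L.length + 1), (-1 : ℂ) ^ n *
      ((mon y z (arc L i n) * d ((zt (arc L i n) : ℂ) / mon y z (arc L i n)) -
        d e / e * (zt (arc L i n) : ℂ)) * (Sb 1 (arc L (i + n) (L.length - n)) : ℂ)) =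
      ∑ n ∈ range (L.length + 1), (-1 : ℂ) ^ n *
      ((mon y z (arc L i n) * d ((zt (arc L i n) : ℂ) / mon y z (arc L i n))) *
        (Sb 1 (arc L (i + n) (L.length - n)) : ℂ)) -
      d e / e * ∑ n ∈ range (L.length + 1), (-1 : ℂ) ^ n *
      ((zt (arc L i n) : ℂ) * (Sb 1 (arc L (i + n) (L.length - n)) : ℂ)) := by
    rw [Finset.mul_sum, ← Finset.sum_sub_distrib]
    refine Finset.sum_congr rfl fun n _ => ?_
    ring
  rw [hC, hA, hB, mul_zero, sub_zero]

theorem PermInv_e (d : Derivation ℤ ℂ ℂ) (y z : ℂ) :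
    PermInv (fun L => -(mon y z L * d ((zt [L.sum] : ℂ) / mon y z L))) := by
  intro L L' h
  have h1 := PermInv_mon d y z L L' h
  simp only at h1 ⊢
  rw [h1]

end Pool.Agent.ZO
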