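import Pool.Agent.LibHF31.E7
import Pool.Agent.LibHB89.B1

/-! [ZO Alt] one of the words 2, 3, 33. -/

set_option autoImplicit false

namespace Pool.Agent.ZO

open Finset
open Pool.HB89.Stmt (zetaW)

theorem Alt_even (k : ℕ) (hk : k ≠ 0) : ∃ r : ℚ, r ≠ 0 ∧
    Pool.Agent.HF.zt [2 * k] = (r : ℝ) * Real.pi ^ (2 * k) := by
  have h1 := Pool.Agent.HF.zt_singleton (2 * k) (by omega)
  have h2 := hasSum_zeta_nat hk
  have h3 := h1.unique h2
  have h5 : Pool.Agent.HF.zt [2 * k] =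
      (((-1) ^ (k + 1) * 2 ^ (2 * k - 1) * bernoulli (2 * k) / (2 * k).factorial : ℚ) : ℝ) *
        Real.pi ^ (2 * k) := by
    rw [h3]
    push_cast
    ring
  refine ⟨_, ?_, h5⟩
  intro h0
  rw [h0, Rat.cast_zero, zero_mul] at h5
  have h6 : 1 ≤ Pool.Agent.HF.zt [2 * k] := by
    have e4 := le_hasSum h1 1 fun j _ => by positivity
    simpa using e4
  linarith

theorem Alt_nil : Pool.Agent.HF.zt [] = 1 := by
  rw [Pool.Agent.HF.zt_eq_hG]; simp [Pool.Agent.HF.hG]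

theorem Alt_Snil : Pool.Agent.HF.S [] = 1 := by
  simp [Pool.Agent.HF.S, Pool.Agent.HF.ph]

/-- `ζ(3)² = 2 ζ(3, 3) + ζ(6)`. -/
theorem Alt_stuffle : Pool.Agent.HF.zt [3] ^ 2 =
    2 * Pool.Agent.HF.zt [3, 3] + Pool.Agent.HF.zt [2 * 3] := by
  have h1 := Pool.Agent.HF.C0 3 (by norm_num) [3] (by simp)
  have h2 := Pool.Agent.HF.ANl [3] (by simp) (by simp)
  simp only [List.length_cons, List.length_nil, zero_add, Finset.sum_range_succ,
    Finset.sum_range_zero, List.take_zero, List.drop_zero, Alt_nil, Alt_Snil] at h1 h2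
  simp [Alt_nil, Alt_Snil] at h1 h2
  have h3 : Pool.Agent.HF.S [3] = Pool.Agent.HF.zt [3] := by linarith
  rw [h3] at h1
  have h4 : Pool.Agent.HF.zt [2 * 3] = Pool.Agent.HF.zt [6] := rfl
  rw [h4]
  nlinarith

theorem exists_transc (K : IntermediateField ℚ ℂ) (y z : ℂ) (hy : y ≠ 0) (hz : z ≠ 0)
    (h : Transcendental K (y / (Real.pi : ℂ) ^ 2) ∨ Transcendental K (z / (Real.pi : ℂ) ^ 3)) :
    ∃ w : List ℕ, (∀ x ∈ w, x = 2 ∨ x = 3) ∧ Transcendental K ((zetaW w : ℂ) / (y ^ w.count 2 * z ^ w.count 3)) := by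
  by_contra hcon
  have hA : ∀ w : List ℕ, (∀ x ∈ w, x = 2 ∨ x = 3) →
      IsAlgebraic K ((Pool.Agent.HF.zt w : ℂ) / (y ^ w.count 2 * z ^ w.count 3)) := by
    intro w hw
    by_contra h1
    exact hcon ⟨w, hw, h1⟩
  have hrat : ∀ r : ℚ, IsAlgebraic K ((r : ℚ) : ℂ) := by
    intro r
    have h1 := isAlgebraic_algebraMap (A := ℂ) ((r : ℚ) : K)
    rwa [map_ratCast] at h1
  have hpi : (Real.pi : ℂ) ≠ 0 := by exact_mod_cast Real.pi_ne_zero
  rcases h with h | h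
  · apply h
    obtain ⟨r, hr, h1⟩ := Alt_even 1 (by norm_num)
    have h2 := hA [2] (by simp)
    have e1 : Pool.Agent.HF.zt [2] = (r : ℝ) * Real.pi ^ 2 := h1
    have e2 : ((Pool.Agent.HF.zt [2] : ℝ) : ℂ) / (y ^ [2].count 2 * z ^ [2].count 3) =
        (r : ℂ) * (Real.pi : ℂ) ^ 2 / y := by
      rw [e1]
      simp
    rw [e2] at h2
    have hr' : (r : ℂ) ≠ 0 := by exact_mod_cast hr
    have e3 : y / (Real.pi : ℂ) ^ 2 = (r : ℂ) * ((r : ℂ) * (Real.pi : ℂ) ^ 2 / y)⁻¹ := by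
      field_simp
    rw [e3]
    exact (hrat r).mul h2.inv
  · apply h
    obtain ⟨r, hr, h1⟩ := Alt_even 3 (by norm_num)
    have h2 := hA [3] (by simp)
    have h3 := hA [3, 3] (by simp)
    have e2 : ((Pool.Agent.HF.zt [3] : ℝ) : ℂ) / (y ^ [3].count 2 * z ^ [3].count 3) =
        ((Pool.Agent.HF.zt [3] : ℝ) : ℂ) / z := by
      simp
    have e3 : ((Pool.Agent.HF.zt [3, 3] : ℝ) : ℂ) / (y ^ [3, 3].count 2 * z ^ [3, 3].count 3) =
        ((Pool.Agent.HF.zt [3, 3] : ℝ) : ℂ) / z ^ 2 := by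
      simp
    rw [e2] at h2
    rw [e3] at h3
    have hr' : (r : ℂ) ≠ 0 := by exact_mod_cast hr
    have e4 : ((Pool.Agent.HF.zt [3] : ℝ) : ℂ) ^ 2 =
        2 * ((Pool.Agent.HF.zt [3, 3] : ℝ) : ℂ) + (r : ℂ) * (Real.pi : ℂ) ^ 6 := by
      have e5 := Alt_stuffle
      rw [h1] at e5
      have e6 : (2 * 3 : ℕ) = 6 := rfl
      rw [e6] at e5
      exact_mod_cast congrArg (fun t : ℝ => (t : ℂ)) e5
    have e7 : ((Real.pi : ℂ) ^ 3 / z) ^ 2 = (r : ℂ)⁻¹ *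
        ((((Pool.Agent.HF.zt [3] : ℝ) : ℂ) / z) ^ 2 -
          ((2 : ℚ) : ℂ) * (((Pool.Agent.HF.zt [3, 3] : ℝ) : ℂ) / z ^ 2)) := by
      rw [div_pow, div_pow, e4]
      push_cast
      field_simp
      ring
    have h5 : IsAlgebraic K (((Real.pi : ℂ) ^ 3 / z) ^ 2) := by
      rw [e7]
      exact (hrat r).inv.mul ((h2.pow 2).sub ((hrat 2).mul h3))
    have h6 : IsAlgebraic K ((Real.pi : ℂ) ^ 3 / z) := IsAlgebraic.of_pow (by norm_num) h5
    have h7 := h6.inv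
    rwa [inv_div] at h7

end Pool.Agent.ZO
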