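import Pool.Agent.LibZO31.Z3

/-!
[ZO V1] peeling of a star sum.

PLAN.  `Sb_cons`: `P_base` for `f = ph w 1`: `ph (n :: w) 1 b = (b^n)⁻¹ * ph w 1 b + ph (n :: w) 1 (b + 1)`, all finite (`ph_fin`), take `toReal` and multiply by `b^(n + wt w)`;
`rb b ^ k * (b + 1)^k = b^k`.
`Sb_sum`: induction on `w` (`List.drop`, `Finset.sum_range_succ'`), `Sb b [] = 1 = Sb (b + 1) []`.
-/

set_option autoImplicit false

namespace Pool.Agent.ZO

open scoped ENNReal
open Finset
open Pool.Agent.HF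

theorem Sb_nil (b : ℕ) : Sb b [] = 1 := by
  simp [Sb, wt_nil, ph]

theorem v1_rb {b : ℕ} (k : ℕ) : rb b ^ k * (((b + 1 : ℕ) : ℝ)) ^ k = (b : ℝ) ^ k := by
  have h : ((b : ℝ) + 1) ≠ 0 := by positivity
  rw [← mul_pow]
  congr 1
  unfold rb
  push_cast
  field_simp

theorem Sb_cons {b : ℕ} (hb : 1 ≤ b) {n : ℕ} (hn : n = 2 ∨ n = 3) {w : List ℕ} (hw : W23 w) :
    Sb b (n :: w) = Sb b w + rb b ^ (n + w.sum) * Sb (b + 1) (n :: w) := by
  have hn0 : n ≠ 0 := by rcases hn with h | h <;> omega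
  have hnw : W023 (n :: w) := by
    intro a ha
    rcases List.mem_cons.1 ha with h | h
    · rw [h]
      exact Or.inr hn
    · exact hw.to0 a h
  have hop : ∀ j, ph (n :: w) (fun _ => 1) j = P n (ph w (fun _ => 1)) j := by
    intro j
    change op n (ph w (fun _ => 1)) j = _
    rw [op, if_neg hn0]
  have hbase := P_base n b (ph w (fun _ => 1))
  rw [← hop, ← hop] at hbase
  have hf1 : ph (n :: w) (fun _ => 1) (b + 1) < ⊤ := ph_fin hnw (by omega)
  have hf2 : ph w (fun _ => 1) b < ⊤ := ph_fin hw.to0 hb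
  have hb0 : (b : ℝ) ≠ 0 := by
    have : (0 : ℝ) < b := by exact_mod_cast hb
    exact this.ne'
  have hinv : ((b : ℝ≥0∞) ^ n)⁻¹ ≠ ⊤ := by
    refine ENNReal.inv_ne_top.2 (pow_ne_zero _ ?_)
    exact_mod_cast (by omega : b ≠ 0)
  have h1 : (ph (n :: w) (fun _ => 1) b).toReal =
      ((b : ℝ) ^ n)⁻¹ * (ph w (fun _ => 1) b).toReal + (ph (n :: w) (fun _ => 1) (b + 1)).toReal := by
    rw [hbase, ENNReal.toReal_add (ENNReal.mul_ne_top hinv hf2.ne) hf1.ne, ENNReal.toReal_mul,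
      ENNReal.toReal_inv, ENNReal.toReal_pow, ENNReal.toReal_natCast]
  have hwt : wt (n :: w) = n + wt w := by rw [wt_cons, if_neg hn0]
  have hws : wt w = w.sum := wt_W23 hw
  unfold Sb
  rw [h1, hwt, hws, ← mul_assoc (rb b ^ (n + w.sum)), v1_rb, mul_add, pow_add]
  congr 1
  have hbn : (b : ℝ) ^ n ≠ 0 := pow_ne_zero _ hb0
  field_simp

theorem Sb_sum {b : ℕ} (hb : 1 ≤ b) {w : List ℕ} (hw : W23 w) :
    Sb b w = ∑ j ∈ range (w.length + 1), rb b ^ (w.drop j).sum * Sb (b + 1) (w.drop j) := by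
  induction w with
  | nil => simp [Sb_nil]
  | cons n w ih =>
    have hn : n = 2 ∨ n = 3 := hw n (by simp)
    have hw' : W23 w := fun a ha => hw a (List.mem_cons_of_mem _ ha)
    rw [List.length_cons, sum_range_succ', Sb_cons hb hn hw', ih hw']
    simp only [List.drop_succ_cons, List.drop_zero, List.sum_cons]

end Pool.Agent.ZO
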