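import Pool.Agent.LibZO31.V3c
import Pool.Agent.LibZO31.V1

/-!
[ZO V2c] peeling of the identity, arcs of length `0` included.
-/

set_option autoImplicit false

namespace Pool.Agent.ZO

open scoped ENNReal
open Finset
open Pool.Agent.HF

theorem v2c_drop (L : List ℕ) (i n j : ℕ) (h : j ≤ n) : (arc L i n).drop j = arc L (i + j) (n - j) := by
  have h1 : arc L i n = arc L i j ++ arc L (i + j) (n - j) := by
    rw [← arc_append]
    congr 1
    omega
  rw [h1, List.drop_left' (v3c_length L i j)]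

theorem v2c_sum (L : List ℕ) (i n : ℕ) (hn : n ≤ L.length) :
    (arc L i n).sum + (arc L (i + n) (L.length - n)).sum = L.sum := by
  rw [← List.sum_append, ← arc_append]
  have h1 : n + (L.length - n) = L.length := by omega
  rw [h1, arc_rot L i _ le_rfl]
  have h2 : (L.rotate i).take L.length = L.rotate i := by
    conv_lhs => rw [← List.length_rotate L i]
    exact List.take_length
  rw [h2]
  exact (List.rotate_perm L i).sum_eq

theorem peelc {b : ℕ} (hb : 1 ≤ b) {x Y : List ℕ → ℂ} (hI : CIc b x Y) :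
    CIc (b + 1) (pc b x) (fun L => (((rb b ^ L.sum)⁻¹ : ℝ) : ℂ) * Y L) := by
  intro L h0 hL
  simp only
  rw [← hI L h0 hL, mul_sum]
  refine sum_congr rfl fun i _ => ?_
  have hβ := rb_pos hb
  have hS : ∀ n ∈ range (L.length + 1), (Sb b (arc L (i + n) (L.length - n)) : ℂ) =
      ∑ n' ∈ Ico n (L.length + 1), ((rb b ^ (arc L (i + n') (L.length - n')).sum *
        Sb (b + 1) (arc L (i + n') (L.length - n')) : ℝ) : ℂ) := by
    intro n hn
    rw [mem_range] at hn
    have hw : W23 (arc L (i + n) (L.length - n)) := fun a ha => hL a (mem_arc L h0 _ _ a ha)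
    rw [Sb_sum hb hw, v3c_length, sum_Ico_eq_sum_range]
    have h1 : L.length + 1 - n = L.length - n + 1 := by omega
    rw [h1, Complex.ofReal_sum]
    refine sum_congr rfl fun j hj => ?_
    rw [mem_range] at hj
    rw [v2c_drop _ _ _ _ (by omega)]
    have h2 : i + n + j = i + (n + j) := by omega
    have h3 : L.length - n - j = L.length - (n + j) := by omega
    rw [h2, h3]
  have h1 : ∑ n ∈ range (L.length + 1), (-1 : ℂ) ^ n *
      (x (arc L i n) * (Sb b (arc L (i + n) (L.length - n)) : ℂ)) =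
      ∑ n' ∈ range (L.length + 1), ∑ n ∈ range (n' + 1), (-1 : ℂ) ^ n * (x (arc L i n) *
        ((rb b ^ (arc L (i + n') (L.length - n')).sum *
        Sb (b + 1) (arc L (i + n') (L.length - n')) : ℝ) : ℂ)) := by
    rw [← sum_comm' (s := range (L.length + 1)) (t := fun n => Ico n (L.length + 1)) (t' := range (L.length + 1))
      (s' := fun n' => range (n' + 1)) (fun n n' => by
        simp only [mem_range, mem_Ico]
        omega)]
    refine sum_congr rfl fun n hn => ?_
    rw [hS n hn, mul_sum, mul_sum]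
  rw [h1, mul_sum]
  refine sum_congr rfl fun n' hn' => ?_
  rw [mem_range] at hn'
  have h2 := v2c_sum L i n' (by omega)
  unfold pc
  rw [v3c_length, E0_arc, ← h2, pow_add]
  have h4 : ∑ n ∈ range (n' + 1), (-1 : ℂ) ^ n * (x (arc L i n) *
        ((rb b ^ (arc L (i + n') (L.length - n')).sum *
        Sb (b + 1) (arc L (i + n') (L.length - n')) : ℝ) : ℂ)) =
      (∑ n ∈ range (n' + 1), (-1 : ℂ) ^ n * x (arc L i n)) *
        ((rb b ^ (arc L (i + n') (L.length - n')).sum *
        Sb (b + 1) (arc L (i + n') (L.length - n')) : ℝ) : ℂ) := by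
    rw [sum_mul]
    refine sum_congr rfl fun n _ => ?_
    ring
  rw [h4]
  have h5 : ((rb b : ℝ) : ℂ) ≠ 0 := by exact_mod_cast hβ.ne'
  have h6 : ((-1 : ℂ) ^ n') * (-1) ^ n' = 1 := by
    rw [← mul_pow]
    norm_num
  push_cast
  have h7 : (((rb b : ℝ) : ℂ) ^ (arc L i n').sum * ((rb b : ℝ) : ℂ) ^
      (arc L (i + n') (L.length - n')).sum)⁻¹ * ((rb b : ℝ) : ℂ) ^
      (arc L (i + n') (L.length - n')).sum = (((rb b : ℝ) : ℂ) ^ (arc L i n').sum)⁻¹ := by
    rw [mul_inv, mul_assoc, inv_mul_cancel₀ (pow_ne_zero _ h5), mul_one]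
  linear_combination ((∑ n ∈ range (n' + 1), (-1 : ℂ) ^ n * x (arc L i n)) *
      (((rb b : ℝ) : ℂ) ^ (arc L i n').sum)⁻¹ *
      (Sb (b + 1) (arc L (i + n') (L.length - n')) : ℂ)) * h6 -
      ((∑ n ∈ range (n' + 1), (-1 : ℂ) ^ n * x (arc L i n)) *
      (Sb (b + 1) (arc L (i + n') (L.length - n')) : ℂ)) * h7

end Pool.Agent.ZO
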