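import Pool.Agent.LibZO31.Defs2

/-!
[ZO V3c] goodness of the peeled function.
-/

set_option autoImplicit false

namespace Pool.Agent.ZO

open scoped ENNReal
open Finset
open Pool.Agent.HF

theorem v3c_take (L : List ℕ) (i n k : ℕ) (h : k ≤ n) : (arc L i n).take k = arc L i k := by
  unfold arc
  rw [← List.map_take, List.take_range, min_eq_left h]

theorem v3c_length (L : List ℕ) (i n : ℕ) : (arc L i n).length = n := by
  unfold arc
  rw [List.length_map, List.length_range]

theorem E0_arc (x : List ℕ → ℂ) (L : List ℕ) (i n : ℕ) :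
    E0 x n (arc L i n) = ∑ k ∈ range (n + 1), (-1) ^ k * x (arc L i k) := by
  unfold E0
  refine sum_congr rfl fun k hk => ?_
  rw [v3c_take L i n k (Nat.le_of_lt_succ (mem_range.1 hk))]

theorem pc_good {b : ℕ} {x : List ℕ → ℂ} {m : ℕ} {L : List ℕ} (hg : Good x (m + 1) L)
    (hE : ∀ i, E0 x (m + 1) (L.rotate i) = 0) : Good (pc b x) m L := by
  intro i n hmn hn
  have h1 : E0 x n (arc L i n) = 0 := by
    rw [E0_arc, ← sum_range_add_sum_Ico _ (by omega : m + 1 + 1 ≤ n + 1)]
    have h2 : ∑ k ∈ range (m + 1 + 1), (-1 : ℂ) ^ k * x (arc L i k) = 0 := by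
      rw [← hE i]
      unfold E0
      refine sum_congr rfl fun k hk => ?_
      rw [mem_range] at hk
      rw [arc_rot L i k (by omega)]
    have h3 : ∑ k ∈ Ico (m + 1 + 1) (n + 1), (-1 : ℂ) ^ k * x (arc L i k) = 0 := by
      refine sum_eq_zero fun k hk => ?_
      rw [mem_Ico] at hk
      rw [hg i k (by omega) (by omega), mul_zero]
    rw [h2, h3, add_zero]
  unfold pc
  rw [v3c_length, h1, mul_zero, zero_mul]

theorem pc_back {b : ℕ} (hb : 1 ≤ b) {x : List ℕ → ℂ} {L : List ℕ} (hx : x [] = 0) (h : Good (pc b x) 0 L) :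
    Good x 0 L := by
  have h1 : ∀ i n, n ≤ L.length → E0 x n (arc L i n) = 0 := by
    intro i n hn
    rcases Nat.eq_zero_or_pos n with rfl | h0
    · unfold E0
      simp [hx]
    · have h2 := h i n h0 hn
      unfold pc at h2
      rw [v3c_length] at h2
      have h3 : (((rb b ^ (arc L i n).sum)⁻¹ : ℝ) : ℂ) ≠ 0 := by
        have := pow_pos (rb_pos hb) (arc L i n).sum
        exact_mod_cast (inv_pos.2 this).ne'
      rcases mul_eq_zero.1 h2 with h4 | h4
      · rcases mul_eq_zero.1 h4 with h5 | h5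
        · exact absurd h5 (pow_ne_zero _ (by norm_num))
        · exact h5
      · exact absurd h4 h3
  intro i n h0 hn
  obtain ⟨k, rfl⟩ := Nat.exists_eq_add_of_lt h0
  rw [zero_add] at hn ⊢
  have h2 := h1 i (k + 1) hn
  have h3 := h1 i k (by omega)
  rw [E0_arc, sum_range_succ] at h2
  rw [E0_arc] at h3
  rw [h3, zero_add] at h2
  rcases mul_eq_zero.1 h2 with h4 | h4
  · exact absurd h4 (pow_ne_zero _ (by norm_num))
  · exact h4

end Pool.Agent.ZO
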