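import Pool.Agent.LibZO31.W9c
import Pool.Agent.LibZO31.V2c
import Pool.Agent.LibZO31.V3c

/-! [ZO V4c] all arcs vanish, and so does the constant. -/

set_option autoImplicit false

namespace Pool.Agent.ZO

open scoped ENNReal
open Finset
open Pool.Agent.HF

/-- **Peeling induction.** -/
theorem vanishc (g : ℕ) : ∀ m, m + 2 ≤ g → ∀ b, 1 ≤ b → ∀ x Y : List ℕ → ℂ, CIc b x Y → PermInv Y →
    ∃ B₀ : ℕ, ∀ B, B₀ ≤ B → ∀ bs : List (List ℕ), bs.length = B →
      (∀ β ∈ bs, β.length = g - 2 ∧ W23 β) →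
      (∀ es : List Bool, es.length = B → Good x m (wd es bs)) →
      x [] = 0 ∧ ∀ es : List Bool, es.length = B → Good x 0 (wd es bs) := by
  intro m
  induction m with
  | zero =>
    intro hg b hb x Y hI hY
    obtain ⟨B₁, h1⟩ := all_zeroc hb x Y hI hY 0 g hg
    refine ⟨B₁, fun B hB bs hbl hbs hgood => ⟨?_, hgood⟩⟩
    have h2 := h1 B hB bs hbl hbs hgood (List.replicate B true) (by simp) 0
    simpa [E0] using h2
  | succ m ih =>
    intro hg b hb x Y hI hY
    obtain ⟨B₁, h1⟩ := all_zeroc hb x Y hI hY (m + 1) g hg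
    obtain ⟨B₂, h2⟩ := ih (by omega) (b + 1) (by omega) (pc b x) _ (peelc hb hI) (PermInv_peelc hY)
    refine ⟨max B₁ B₂, fun B hB bs hbl hbs hgood => ?_⟩
    have h3 := h1 B (by omega) bs hbl hbs hgood
    obtain ⟨h4, h5⟩ := h2 B (by omega) bs hbl hbs (fun es' hes' => pc_good (hgood es' hes') (h3 es' hes'))
    rw [pc_nil] at h4
    exact ⟨h4, fun es hes => pc_back hb h4 (h5 es hes)⟩

end Pool.Agent.ZO
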