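import Pool.Agent.LibZO31.V0
import Pool.Agent.LibZO31.V4c
import Pool.Agent.LibZO31.A2
import Pool.Agent.LibHF31.E7

/-! [ZO V5] the zero-one law. -/

set_option autoImplicit false

namespace Pool.Agent.ZO

open Finset
open Pool.Agent.HF

theorem mon_ne {y z : ℂ} (hy : y ≠ 0) (hz : z ≠ 0) (u : List ℕ) : mon y z u ≠ 0 :=
  mul_ne_zero (pow_ne_zero _ hy) (pow_ne_zero _ hz)

/-- **Zero-one law.** -/
theorem zero_one (K : IntermediateField ℚ ℂ) (e y z : ℂ) (he : e ≠ 0) (hy : y ≠ 0) (hz : z ≠ 0) (u0 : List ℕ)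
    (hu0 : W23 u0) (hT0 : Transcendental K ((zt u0 : ℂ) / (e * mon y z u0))) (a b : ℝ) (ha : 0 < a) (hb : 0 < b)
    (hab : 1 < a + b) :
    ¬ Summable fun w : {w : List ℕ // (∀ x ∈ w, x = 2 ∨ x = 3) ∧
        w ∈ {w | Transcendental K ((zt w : ℂ) / (e * mon y z w))}} => a ^ (w.1.count 2) * b ^ (w.1.count 3) := by
  intro hS
  obtain ⟨D, hD⟩ := exists_der K ℂ _ hT0
  have hI := cyclic_e (D.restrictScalars ℤ) e y z he hy hz
  have hY := PermInv_e (D.restrictScalars ℤ) y z
  obtain ⟨G, m, hG, hcirc⟩ := circles_word ha hb hab _ hS u0 hu0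
  obtain ⟨B0, hB0⟩ := vanishc ((m + 2) * G) m (by nlinarith) 1 le_rfl _ _ hI hY
  obtain ⟨bs, hl, hbs, harc⟩ := hcirc ((m + 2) * (B0 + 1)) (Nat.mul_pos (by omega) (by omega))
  obtain ⟨bs', hl', hbs', -, hes⟩ := merge (m + 2) G (by omega) (by omega) (B0 + 1) bs hl
    (fun β hβ => ⟨(hbs β hβ).1, (hbs β hβ).2.1⟩)
  have hlen : ∀ es : List Bool, es.length = (m + 2) * (B0 + 1) → (wd es bs).length = (m + 2) * (B0 + 1) * G := by
    intro es hes'
    rw [length_wd (hes'.trans hl.symm)]
    have h1 : bs.flatten.length = bs.length * (G - 2) := by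
      rw [List.length_flatten]
      have h2 : List.map List.length bs = List.replicate bs.length (G - 2) := by
        rw [List.eq_replicate_iff]
        refine ⟨by simp, ?_⟩
        intro a ha
        rw [List.mem_map] at ha
        obtain ⟨β, hβ, rfl⟩ := ha
        exact (hbs β hβ).1
      rw [h2, List.sum_replicate, smul_eq_mul]
    rw [h1, hl]
    obtain ⟨G', rfl⟩ : ∃ G', G = G' + 2 := ⟨G - 2, by omega⟩
    have h3 : G' + 2 - 2 = G' := by omega
    rw [h3]
    ring
  have hzero : ∀ w : List ℕ, ¬ Transcendental K ((zt w : ℂ) / (e * mon y z w)) →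
      (D.restrictScalars ℤ) ((zt w : ℂ) / (e * mon y z w)) = 0 := by
    intro w hw
    have h1 : IsAlgebraic K ((zt w : ℂ) / (e * mon y z w)) := by
      by_contra h
      exact hw h
    exact der_alg K ℂ D _ h1
  have hgood : ∀ es' : List Bool, es'.length = B0 + 1 →
      Good (fun u => e * mon y z u * (D.restrictScalars ℤ) ((zt u : ℂ) / (e * mon y z u))) m (wd es' bs') := by
    intro es' he'
    obtain ⟨es, hesl, heq⟩ := hes es' he'
    intro i n hmn hn
    rw [heq] at hn ⊢
    rw [hlen es hesl] at hn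
    have h1 := hzero _ (harc es hesl i n hmn hn)
    simp only
    rw [h1, mul_zero]
  obtain ⟨hnil, hfin⟩ := hB0 (B0 + 1) (by omega) bs' hl' hbs' hgood
  have h4 : (D.restrictScalars ℤ) ((zt u0 : ℂ) / (e * mon y z u0)) = 1 := hD
  -- the empty word
  have hne : u0 ≠ [] := by
    rintro rfl
    rw [h4, mul_one] at hnil
    exact mul_ne_zero he (mon_ne hy hz []) hnil
  obtain ⟨es, hesl, heq⟩ := hes (List.replicate (B0 + 1) true) (by simp)
  have hfin := hfin (List.replicate (B0 + 1) true) (by simp)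
  rw [heq] at hfin
  -- the word `u0` is an arc
  have hu0l : 0 < u0.length := List.length_pos_of_ne_nil hne
  have hpos : 1 ≤ (m + 2) * (B0 + 1) := Nat.mul_pos (by omega) (by omega)
  have harc0 : arc (wd es bs) 2 u0.length = u0 := by
    rcases bs with _ | ⟨β, bs1⟩
    · exfalso
      rw [List.length_nil] at hl
      omega
    · rcases es with _ | ⟨e', es1⟩
      · exfalso
        rw [List.length_nil] at hesl
        omega
      · obtain ⟨t, rfl⟩ := (hbs β (by simp)).2.2
        have hs : (site e').length = 2 := by cases e' <;> rfl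
        rw [arc_eq _ _ _ (by
          rw [hlen _ hesl]
          nlinarith), wd_cons, List.append_assoc, List.append_assoc,
          List.drop_append_of_le_length (by omega), List.drop_eq_nil_of_le (by omega), List.nil_append,
          List.take_left']
        rfl
  have h3 := hfin 2 u0.length hu0l (by
    rw [hlen es hesl]
    nlinarith)
  rw [harc0] at h3
  simp only at h3
  rw [h4, mul_one] at h3
  exact mul_ne_zero he (mon_ne hy hz u0) h3

end Pool.Agent.ZO
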