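import Pool.Agent.LibZO31.Alt
import Pool.Agent.LibZO31.V5c

/-! [ZO Alt2] one of the words (empty), 2, 3, 33, with the constant `e`. -/

set_option autoImplicit false

namespace Pool.Agent.ZO

open Finset
open Pool.HB89.Stmt (zetaW)

theorem zetaW_nil : zetaW [] = 1 := by
  have h : Pool.Agent.HF.zt [] = 1 := by
    rw [Pool.Agent.HF.zt_eq_hG]; simp [Pool.Agent.HF.hG]
  exact h

theorem exists_transc_e (K : IntermediateField ℚ ℂ) (e y z : ℂ) (he : e ≠ 0) (hy : y ≠ 0) (hz : z ≠ 0)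
    (h : Transcendental K e ∨ Transcendental K (y / (Real.pi : ℂ) ^ 2) ∨ Transcendental K (z / (Real.pi : ℂ) ^ 3)) :
    ∃ w : List ℕ, (∀ x ∈ w, x = 2 ∨ x = 3) ∧
      Transcendental K ((zetaW w : ℂ) / (e * (y ^ w.count 2 * z ^ w.count 3))) := by
  by_cases hE : Transcendental K e
  · refine ⟨[], fun x hx => absurd hx (List.not_mem_nil), fun hal => hE ?_⟩
    rw [zetaW_nil] at hal
    have h1 : ((1 : ℝ) : ℂ) / (e * (y ^ List.count 2 [] * z ^ List.count 3 [])) = e⁻¹ := by
      simp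
    rw [h1] at hal
    have := hal.inv
    rwa [inv_inv] at this
  · have hE' : IsAlgebraic K e := by
      by_contra h0
      exact hE h0
    obtain ⟨w, hw, hT⟩ := exists_transc K y z hy hz (h.resolve_left hE)
    refine ⟨w, hw, fun hal => hT ?_⟩
    have h2 := hE'.mul hal
    have h3 : e * ((zetaW w : ℂ) / (e * (y ^ w.count 2 * z ^ w.count 3))) =
        (zetaW w : ℂ) / (y ^ w.count 2 * z ^ w.count 3) := by
      have : y ^ w.count 2 * z ^ w.count 3 ≠ 0 := mul_ne_zero (pow_ne_zero _ hy) (pow_ne_zero _ hz)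
      field_simp
    rwa [h3] at h2

end Pool.Agent.ZO
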