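import Pool.Agent.LibHF31.Core

/-!
Zero-one law for Hoffman elements (MP_c2d7b4_nt), extension of `LibHF31` to an arbitrary base level `b ≥ 1`.

`Sb b u` is the normalised star sum with all indices at least `b` (`Sb 1 u = S u`). The derived cyclic identity with
base level `b` is `CIb b x Y`. If all the local sums of `x` vanish, then the level `b` can be peeled off: `px b x`
satisfies the identity with base level `b + 1` and vanishes on arcs longer than `m - 1`.
-/

set_option autoImplicit false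

namespace Pool.Agent.ZO

open scoped ENNReal
open Finset
open Pool.Agent.HF

/-- The weight of a word; the letter `0` (the commutator) has weight `5`. -/
def wt (u : List ℕ) : ℕ := (u.map (fun n => if n = 0 then 5 else n)).sum

/-- `b / (b + 1)`. -/
noncomputable def rb (b : ℕ) : ℝ := (b : ℝ) / ((b : ℝ) + 1)

/-- The normalised star sum with indices `≥ b`: `b ^ |u| ∑_{b ≤ k₁ ≤ ⋯ ≤ k_s} ∏ k_i ^ (-u_i)`. -/
noncomputable def Sb (b : ℕ) (u : List ℕ) : ℝ := (b : ℝ) ^ wt u * (ph u (fun _ => 1) b).toReal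

/-- The arcs of length at most `m` starting at the position `i`. -/
noncomputable def Dib (b : ℕ) (x : List ℕ → ℂ) (m : ℕ) (L : List ℕ) (i : ℕ) : ℂ :=
  ∑ n ∈ range m, (-1) ^ n * (x ((L.rotate i).take (n + 1)) * (Sb b ((L.rotate i).drop (n + 1)) : ℂ))

/-- The left side of the identity. -/
noncomputable def DDb (b : ℕ) (x : List ℕ → ℂ) (m : ℕ) (L : List ℕ) : ℂ := ∑ i ∈ range L.length, Dib b x m L i

/-- The derived cyclic identity with base level `b`. -/
def CIb (b : ℕ) (x : List ℕ → ℂ) (Y : List ℕ → ℂ) : Prop :=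
  ∀ L : List ℕ, L ≠ [] → W23 L →
    ∑ i ∈ range L.length, ∑ n ∈ range L.length, (-1 : ℂ) ^ n *
      (x (arc L i (n + 1)) * (Sb b (arc L (i + n + 1) (L.length - n - 1)) : ℂ)) = Y L

/-- The right side depends on the letters only, not on their order. -/
def PermInv (Y : List ℕ → ℂ) : Prop := ∀ L L' : List ℕ, L.Perm L' → Y L = Y L'

/-- The peeled function. -/
noncomputable def px (b : ℕ) (x : List ℕ → ℂ) (u : List ℕ) : ℂ :=
  (-1) ^ (u.length - 1) * EE x u.length u * (((rb b ^ u.sum)⁻¹ : ℝ) : ℂ)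

/-- The two bounds of the base level `b` which are used. -/
structure Bd (b : ℕ) (C : ℝ) : Prop where
  hC : 0 ≤ C
  lower : ∀ {v u : List ℕ}, W23 v → W023 u → Sb b u ≤ Sb b (v ++ u)
  upper : ∀ {v u : List ℕ}, W23 v → W023 u → Sb b (v ++ u) ≤ Sb b u + C * rb b ^ u.length
  zero : ∀ {v u : List ℕ}, W23 v → W023 u → Sb b (v ++ 0 :: u) ≤ C * rb b ^ u.length

theorem rb_nonneg (b : ℕ) : 0 ≤ rb b := by
  unfold rb
  positivity

theorem rb_pos {b : ℕ} (hb : 1 ≤ b) : 0 < rb b := by
  unfold rb
  have : (0 : ℝ) < b := by exact_mod_cast hb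
  positivity

theorem rb_lt_one (b : ℕ) : rb b < 1 := by
  unfold rb
  rw [div_lt_one (by positivity)]
  linarith

theorem rb_le_one (b : ℕ) : rb b ≤ 1 := (rb_lt_one b).le

theorem wt_nil : wt [] = 0 := rfl

theorem wt_cons (a : ℕ) (u : List ℕ) : wt (a :: u) = (if a = 0 then 5 else a) + wt u := by
  simp [wt]

theorem wt_append (u v : List ℕ) : wt (u ++ v) = wt u + wt v := by
  simp [wt]

theorem wt_W23 {u : List ℕ} (hu : W23 u) : wt u = u.sum := by
  induction u with
  | nil => rfl
  | cons a u ih =>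
    have h1 : W23 u := fun b hb => hu b (List.mem_cons_of_mem a hb)
    have h2 : a ≠ 0 := by rcases hu a (by simp) with h | h <;> omega
    rw [wt_cons, if_neg h2, ih h1, List.sum_cons]

theorem Sb_nonneg (b : ℕ) (u : List ℕ) : 0 ≤ Sb b u := by
  unfold Sb
  have := ENNReal.toReal_nonneg (a := ph u (fun _ => 1) b)
  positivity

end Pool.Agent.ZO
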