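import Pool.Agent.LibZO31.Defs

/-!
The version with a free parameter (arcs of length `0` are allowed, `x []` is a free constant).
-/

set_option autoImplicit false

namespace Pool.Agent.ZO

open scoped ENNReal
open Finset
open Pool.Agent.HF

/-- The local sum, from the empty word on. -/
noncomputable def E0 (x : List ℕ → ℂ) (m : ℕ) (u : List ℕ) : ℂ :=
  ∑ n ∈ range (m + 1), (-1) ^ n * x (u.take n)

/-- The arcs of length at most `m` starting at the position `i`. -/
noncomputable def Dic (b : ℕ) (x : List ℕ → ℂ) (m : ℕ) (L : List ℕ) (i : ℕ) : ℂ :=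
  ∑ n ∈ range (m + 1), (-1) ^ n * (x ((L.rotate i).take n) * (Sb b ((L.rotate i).drop n) : ℂ))

/-- The left side of the identity. -/
noncomputable def DDc (b : ℕ) (x : List ℕ → ℂ) (m : ℕ) (L : List ℕ) : ℂ := ∑ i ∈ range L.length, Dic b x m L i

/-- The derived cyclic identity with base level `b`, arcs of length `0` included. -/
def CIc (b : ℕ) (x : List ℕ → ℂ) (Y : List ℕ → ℂ) : Prop :=
  ∀ L : List ℕ, L ≠ [] → W23 L →
    ∑ i ∈ range L.length, ∑ n ∈ range (L.length + 1), (-1 : ℂ) ^ n *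
      (x (arc L i n) * (Sb b (arc L (i + n) (L.length - n)) : ℂ)) = Y L

/-- The `r`-th coefficient. -/
noncomputable def cf (x : List ℕ → ℂ) (m : ℕ) (c F : List ℕ) (r : ℕ) : ℂ :=
  if r ≤ c.length then E0 x m (c.drop r ++ 3 :: 2 :: F) - E0 x m (c.drop r ++ 2 :: 3 :: F)
  else if r = c.length + 1 then - E0 x m (3 :: F)
  else if r = c.length + 2 then E0 x m (2 :: F) else E0 x m (F.drop (r - c.length - 3))

/-- The peeled function. -/
noncomputable def pc (b : ℕ) (x : List ℕ → ℂ) (u : List ℕ) : ℂ :=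
  (-1) ^ u.length * E0 x u.length u * (((rb b ^ u.sum)⁻¹ : ℝ) : ℂ)

theorem PermInv_peelc {b : ℕ} {Y : List ℕ → ℂ} (hY : PermInv Y) :
    PermInv (fun L => (((rb b ^ L.sum)⁻¹ : ℝ) : ℂ) * Y L) := by
  intro L L' h
  simp only
  rw [h.sum_eq, hY L L' h]

theorem pc_nil (b : ℕ) (x : List ℕ → ℂ) : pc b x [] = x [] := by
  simp [pc, E0]

end Pool.Agent.ZO
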