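import Pool.Agent.LibHF31.Core
import Pool.Agent.LibHF97.CirclesW

/-! [ZO V0] circles with a prescribed word. -/

set_option autoImplicit false

namespace Pool.Agent.ZO

open Finset
open Pool.Agent.HF

theorem circles_word {a b : ℝ} (ha : 0 < a) (hb : 0 < b) (hab : 1 < a + b) (T : Set (List ℕ))
    (hT : Summable fun w : {w : List ℕ // (∀ x ∈ w, x = 2 ∨ x = 3) ∧ w ∈ T} => a ^ (w.1.count 2) * b ^ (w.1.count 3))
    (u0 : List ℕ) (hu0 : W23 u0) :
    ∃ G m : ℕ, u0.length + 4 ≤ G ∧ ∀ B : ℕ, 1 ≤ B → ∃ bs : List (List ℕ), bs.length = B ∧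
      (∀ β ∈ bs, β.length = G - 2 ∧ W23 β ∧ u0 <+: β) ∧
      ∀ es : List Bool, es.length = B → ∀ i n, m < n → n ≤ B * G → arc (wd es bs) i n ∉ T :=
  HF97.circles_word ha hb hab T hT u0 hu0

end Pool.Agent.ZO
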