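import Pool.Agent.LibHF31.C7a
import Pool.Agent.LibZO31.Defs2

set_option autoImplicit false

namespace Pool.Agent.ZO

open scoped ENNReal
open Finset
open Pool.Agent.HF

theorem E0_take (x : List ℕ → ℂ) (m : ℕ) (u : List ℕ) : E0 x m (u.take m) = E0 x m u := by
  unfold E0
  refine Finset.sum_congr rfl fun n hn => ?_
  rw [Finset.mem_range] at hn
  rw [List.take_take, min_eq_left (by omega : n ≤ m)]

theorem E0_append (x : List ℕ → ℂ) (m : ℕ) {u v : List ℕ} (h : m ≤ u.length) :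
    E0 x m (u ++ v) = E0 x m u := by
  unfold E0
  refine Finset.sum_congr rfl fun n hn => ?_
  rw [Finset.mem_range] at hn
  rw [List.take_append_of_le_length (by omega : n ≤ u.length)]

theorem cf_values (x : List ℕ → ℂ) (m : ℕ) :
    ∃ δ B : ℝ, 0 < δ ∧ 0 ≤ B ∧ ∀ c F : List ℕ, W23 c → W23 F → ∀ r,
      ‖cf x m c F r‖ ≤ B ∧ (cf x m c F r = 0 ∨ δ ≤ ‖cf x m c F r‖) := by
  classical
  have hA : ({0} ∪ (E0 x m '' {u : List ℕ | W23 u ∧ u.length ≤ m})).Finite :=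
    (Set.finite_singleton 0).union ((finite_words m).image _)
  have hV : (Set.image2 (fun a b : ℂ => a - b) ({0} ∪ (E0 x m '' {u : List ℕ | W23 u ∧ u.length ≤ m}))
      ({0} ∪ (E0 x m '' {u : List ℕ | W23 u ∧ u.length ≤ m}))).Finite := hA.image2 _ hA
  set A : Set ℂ := {0} ∪ (E0 x m '' {u : List ℕ | W23 u ∧ u.length ≤ m}) with hAdef
  set V : Set ℂ := Set.image2 (fun a b : ℂ => a - b) A A with hVdef
  have hEE : ∀ u, W23 u → E0 x m u ∈ A := by
    intro u hu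
    refine Or.inr ⟨u.take m, ⟨hu.take m, ?_⟩, E0_take x m u⟩
    rw [List.length_take]
    exact min_le_left _ _
  have h0A : (0 : ℂ) ∈ A := Or.inl rfl
  have hce : ∀ c F : List ℕ, W23 c → W23 F → ∀ r, cf x m c F r ∈ V := by
    intro c F hc hF r
    unfold cf
    split_ifs with h1 h2 h3
    · exact ⟨_, hEE _ ((hc.drop r).append hF.cons2.cons3), _, hEE _ ((hc.drop r).append hF.cons3.cons2), rfl⟩
    · exact ⟨0, h0A, _, hEE _ hF.cons3, zero_sub _⟩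
    · exact ⟨_, hEE _ hF.cons2, 0, h0A, sub_zero _⟩
    · exact ⟨_, hEE _ (hF.drop _), 0, h0A, sub_zero _⟩
  obtain ⟨B, hB⟩ := (hV.image fun z => ‖z‖).bddAbove
  obtain ⟨δ, hδ0, hδ⟩ : ∃ δ : ℝ, 0 < δ ∧ ∀ z ∈ V, z = 0 ∨ δ ≤ ‖z‖ := by
    by_cases hne : (V \ {0}).Nonempty
    · obtain ⟨z₀, hz₀, hmin⟩ := Set.exists_min_image (V \ {0}) (fun z => ‖z‖) (hV.sdiff) hne
      refine ⟨‖z₀‖, norm_pos_iff.2 hz₀.2, fun z hz => ?_⟩
      by_cases h0 : z = 0
      · exact Or.inl h0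
      · exact Or.inr (hmin z ⟨hz, h0⟩)
    · refine ⟨1, one_pos, fun z hz => Or.inl ?_⟩
      by_contra h0
      exact hne ⟨z, hz, h0⟩
  refine ⟨δ, max B 0, hδ0, le_max_right _ _, fun c F hc hF r => ⟨?_, hδ _ (hce c F hc hF r)⟩⟩
  exact le_trans (hB ⟨_, hce c F hc hF r, rfl⟩) (le_max_left _ _)

end Pool.Agent.ZO
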