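import Pool.Agent.LibZO31.Defs2

set_option autoImplicit false

namespace Pool.Agent.ZO

open scoped ENNReal
open Pool.Agent.HF

open Finset

theorem DDc_eq {b : ℕ} {x Y : List ℕ → ℂ} (hI : CIc b x Y) {L : List ℕ} (h0 : L ≠ []) (hL : W23 L)
    {m : ℕ} (hm : m ≤ L.length) (hg : Good x m L) : DDc b x m L = Y L := by
  rw [← hI L h0 hL]
  unfold DDc Dic
  refine Finset.sum_congr rfl fun i _ => ?_
  rw [← Finset.sum_subset (Finset.range_subset_range.2 (Nat.add_le_add_right hm 1))]
  · refine Finset.sum_congr rfl fun n hn => ?_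
    rw [Finset.mem_range] at hn
    rw [arc_rot L i n (by omega), rest_rot L i n (by omega)]
  · intro n hn hn'
    rw [Finset.mem_range] at hn hn'
    rw [hg i n (by omega) (by omega), zero_mul, mul_zero]


end Pool.Agent.ZO
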