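import Pool.Agent.LibZO31.Z5

set_option autoImplicit false

namespace Pool.Agent.ZO

open scoped ENNReal
open Pool.Agent.HF

open Finset

private theorem C2_W023_append {u v : List ℕ} (hu : W023 u) (hv : W023 v) : W023 (u ++ v) := by
  intro a ha
  rcases List.mem_append.1 ha with h | h
  · exact hu a h
  · exact hv a h

private theorem C2_W023_of_W23 {u : List ℕ} (hu : W23 u) : W023 u :=
  fun a ha => Or.inr (hu a ha)

theorem mix_Sb {b : ℕ} (hb : 1 ≤ b) {u v : List ℕ} {αs : List (List ℕ)} (hu : W023 u) (hv : W023 v)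
    (hα : ∀ α ∈ αs, W23 α) :
    mix αs (fun w => (Sb b (u ++ w ++ v) : ℂ)) = (Sb b (u ++ Zw αs ++ v) : ℂ) := by
  induction αs generalizing u with
  | nil => simp [mix, Zw]
  | cons α αs ih =>
    have hα1 : W23 α := hα α (by simp)
    have hα2 : ∀ β ∈ αs, W23 β := fun β hβ => hα β (by simp [hβ])
    have hs : ∀ e : Bool, W023 (site e) := fun e => C2_W023_of_W23 (W23_site e)
    simp only [mix]
    have h1 : mix αs (fun w => (Sb b (u ++ ([3, 2] ++ α ++ w) ++ v) : ℂ)) =
        (Sb b ((u ++ ([3, 2] ++ α)) ++ Zw αs ++ v) : ℂ) := by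
      rw [← ih (u := u ++ ([3, 2] ++ α))
        (C2_W023_append hu (C2_W023_append (hs false) (C2_W023_of_W23 hα1))) hα2]
      congr 1
      funext w
      simp [List.append_assoc]
    have h2 : mix αs (fun w => (Sb b (u ++ ([2, 3] ++ α ++ w) ++ v) : ℂ)) =
        (Sb b ((u ++ ([2, 3] ++ α)) ++ Zw αs ++ v) : ℂ) := by
      rw [← ih (u := u ++ ([2, 3] ++ α))
        (C2_W023_append hu (C2_W023_append (hs true) (C2_W023_of_W23 hα1))) hα2]
      congr 1
      funext w
      simp [List.append_assoc]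
    rw [h1, h2]
    have hv' : W023 (α ++ (Zw αs ++ v)) :=
      C2_W023_append (C2_W023_of_W23 hα1) (C2_W023_append (W023_Zw hα2) hv)
    have h3 := Sb_comm hb hu hv'
    have e1 : (u ++ ([3, 2] ++ α)) ++ Zw αs ++ v = u ++ 3 :: 2 :: (α ++ (Zw αs ++ v)) := by
      simp [List.append_assoc]
    have e2 : (u ++ ([2, 3] ++ α)) ++ Zw αs ++ v = u ++ 2 :: 3 :: (α ++ (Zw αs ++ v)) := by
      simp [List.append_assoc]
    have e3 : u ++ Zw (α :: αs) ++ v = u ++ 0 :: (α ++ (Zw αs ++ v)) := by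
      rw [Zw_cons]
      simp [List.append_assoc]
    rw [e1, e2, e3, h3]
    push_cast
    ring


end Pool.Agent.ZO
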