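import Pool.Agent.LibZO31.Z5
import Pool.Agent.LibZO31.Defs2

set_option autoImplicit false

namespace Pool.Agent.ZO

open scoped ENNReal
open Pool.Agent.HF

open Finset

theorem W3c_term {b : ℕ} {x : List ℕ → ℂ} {m : ℕ} {V T : List ℕ} (hm : m ≤ V.length) (p : List ℕ)
    {L : List ℕ} {i : ℕ} (h : L.rotate i = V ++ (p ++ T)) :
    Dic b x m L i = ∑ n ∈ range (m + 1),
      (-1) ^ n * (x (V.take n) * (Sb b (V.drop n ++ (p ++ T)) : ℂ)) := by
  unfold Dic
  refine Finset.sum_congr rfl fun n hn => ?_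
  have hn' : n ≤ V.length := by
    have := Finset.mem_range.1 hn
    omega
  rw [h, List.take_append_of_le_length hn', List.drop_append_of_le_length hn']

theorem rangeIIc {b : ℕ} (hb : 1 ≤ b) {C : ℝ} (hB : Bd b C) {x : List ℕ → ℂ} {m : ℕ} {X : ℝ} (hX : ∀ u, W23 u → u.length ≤ m → ‖x u‖ ≤ X)
    {c F1 F2 w : List ℕ} (hc : W23 c) (h1 : W23 F1) (h2 : W23 F2) (hw : W23 w)
    (hcm : m ≤ c.length) {i : ℕ} (hi : c.length + 2 + F1.length ≤ i)
    (hi' : i < c.length + 2 + F1.length + F2.length + w.length) :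
    ‖Dic b x m (c ++ [3, 2] ++ F1 ++ F2 ++ w) i - Dic b x m (c ++ [2, 3] ++ F1 ++ F2 ++ w) i‖ ≤
      ((m + 1 : ℕ) : ℝ) * X * (C * rb b ^ F1.length) := by
  set i' := i - (c.length + 2 + F1.length) with hi0
  set V := (F2 ++ w).drop i' ++ c with hV
  set T := F1 ++ (F2 ++ w).take i' with hT
  have hVm : m ≤ V.length := by
    rw [hV, List.length_append]
    omega
  have hVW : W23 V := ((h2.append hw).drop i').append hc
  have hTW : W23 T := h1.append ((h2.append hw).take i')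
  rw [W3c_term (b := b) (x := x) hVm [3, 2] (C3_rot (by rfl) hi hi'),
    W3c_term (b := b) (x := x) hVm [2, 3] (C3_rot (by rfl) hi hi'), ← Finset.sum_sub_distrib]
  refine (norm_sum_le _ _).trans ?_
  have hb : ∀ n ∈ range (m + 1), ‖(-1 : ℂ) ^ n * (x (V.take n) *
      (Sb b (V.drop n ++ ([3, 2] ++ T)) : ℂ)) - (-1) ^ n * (x (V.take n) *
      (Sb b (V.drop n ++ ([2, 3] ++ T)) : ℂ))‖ ≤ X * (C * rb b ^ F1.length) := by
    intro n hn
    have hn' := Finset.mem_range.1 hn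
    have hc1 : Sb b (V.drop n ++ ([3, 2] ++ T)) =
        Sb b (V.drop n ++ ([2, 3] ++ T)) + Sb b (V.drop n ++ 0 :: T) :=
      Sb_comm hb (hVW.drop _).to0 hTW.to0
    rw [hc1]
    have h3 : (-1 : ℂ) ^ n * (x (V.take n) * (((Sb b (V.drop n ++ ([2, 3] ++ T)) +
        Sb b (V.drop n ++ 0 :: T) : ℝ)) : ℂ)) - (-1) ^ n * (x (V.take n) *
        (Sb b (V.drop n ++ ([2, 3] ++ T)) : ℂ)) =
        (-1) ^ n * (x (V.take n) * (Sb b (V.drop n ++ 0 :: T) : ℂ)) := by
      push_cast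
      ring
    rw [h3, norm_mul, norm_pow, norm_neg, norm_one, one_pow, one_mul, norm_mul]
    have h4 : ‖x (V.take n)‖ ≤ X := by
      apply hX _ (hVW.take _)
      rw [List.length_take]
      omega
    have h5 : ‖((Sb b (V.drop n ++ 0 :: T) : ℝ) : ℂ)‖ ≤ C * rb b ^ F1.length := by
      rw [Complex.norm_real, Real.norm_of_nonneg (Sb_nonneg b _)]
      refine (hB.zero (hVW.drop _) hTW.to0).trans ?_
      have h6 : rb b ^ T.length ≤ rb b ^ F1.length := by
        apply pow_le_pow_of_le_one (rb_nonneg b) (rb_le_one b)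
        rw [hT, List.length_append]
        omega
      exact mul_le_mul_of_nonneg_left h6 hB.hC
    exact mul_le_mul h4 h5 (norm_nonneg _) ((norm_nonneg _).trans h4)
  refine (Finset.sum_le_sum hb).trans ?_
  rw [Finset.sum_const, Finset.card_range, nsmul_eq_mul, mul_assoc]


end Pool.Agent.ZO
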