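import Pool.Agent.LibZO31.W2
import Pool.Agent.LibZO31.Defs2

set_option autoImplicit false

namespace Pool.Agent.ZO

open scoped ENNReal
open Pool.Agent.HF


open Finset

theorem W4c_Di {b : ℕ} {x : List ℕ → ℂ} {m : ℕ} {V : List ℕ} {i : ℕ} (hi : i + m ≤ V.length)
    (w : List ℕ) : Dic b x m (V ++ w) i = ∑ n ∈ range (m + 1),
      (-1) ^ n * (x ((V.drop i).take n) * (Sb b (V.drop (i + n) ++ w ++ V.take i) : ℂ)) := by
  unfold Dic
  have h0 : (V ++ w).rotate i = V.drop i ++ (w ++ V.take i) := by
    rw [List.rotate_eq_drop_append_take (by rw [List.length_append]; omega),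
      List.drop_append_of_le_length (by omega), List.take_append_of_le_length (by omega),
      List.append_assoc]
  refine Finset.sum_congr rfl fun n hn => ?_
  have hn' := Finset.mem_range.1 hn
  have hl : n ≤ (V.drop i).length := by
    rw [List.length_drop]
    omega
  rw [h0, List.take_append_of_le_length hl, List.drop_append_of_le_length hl, List.drop_drop,
    ← List.append_assoc]

theorem rangeIc {b : ℕ} (hb : 1 ≤ b) {C : ℝ} (hB : Bd b C) {x : List ℕ → ℂ} {m : ℕ} {X : ℝ} (hX : ∀ u, W23 u → u.length ≤ m → ‖x u‖ ≤ X)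
    {c F1 F2 p : List ℕ} {αs : List (List ℕ)} (hc : W23 c) (h1 : W23 F1) (h2 : W23 F2)
    (hp : W23 p) (hα : ∀ α ∈ αs, W23 α) (hp2 : p.length = 2) (hm : m ≤ F2.length) {i : ℕ}
    (hi : i < c.length + 2 + F1.length) :
    ‖mix αs (fun w => Dic b x m (c ++ p ++ F1 ++ F2 ++ w) i) -
      E0 x m ((c ++ p ++ F1 ++ F2).drop i) *
        (Sb b (F2.drop m ++ Zw αs ++ (c ++ p ++ F1 ++ F2).take i) : ℂ)‖ ≤
      ((m + 1 : ℕ) : ℝ) * X * (C * rb b ^ (F2.length - m)) := by
  set V := c ++ p ++ F1 ++ F2 with hV
  have hVl : V.length = c.length + 2 + F1.length + F2.length := by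
    rw [hV]
    simp only [List.length_append, hp2]
  have hVW : W23 V := ((hc.append hp).append h1).append h2
  have hDi : (fun w => Dic b x m (V ++ w) i) = fun w => ∑ n ∈ range (m + 1),
      ((-1) ^ n * x ((V.drop i).take n)) * (Sb b (V.drop (i + n) ++ w ++ V.take i) : ℂ) := by
    funext w
    rw [W4c_Di (by omega)]
    refine Finset.sum_congr rfl fun n _ => ?_
    ring
  rw [hDi, mix_sum]
  have hterm : ∀ n ∈ range (m + 1), mix αs (fun w => ((-1) ^ n * x ((V.drop i).take n)) *
      (Sb b (V.drop (i + n) ++ w ++ V.take i) : ℂ)) =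
      ((-1) ^ n * x ((V.drop i).take n)) *
        (Sb b (V.drop (i + n) ++ Zw αs ++ V.take i) : ℂ) := by
    intro n _
    rw [mix_mul, mix_Sb hb (hVW.drop _).to0 (hVW.take _).to0 hα]
  rw [Finset.sum_congr rfl hterm]
  unfold E0
  rw [Finset.sum_mul, ← Finset.sum_sub_distrib]
  refine (norm_sum_le _ _).trans ?_
  have hb : ∀ n ∈ range (m + 1), ‖((-1 : ℂ) ^ n * x ((V.drop i).take n)) *
        (Sb b (V.drop (i + n) ++ Zw αs ++ V.take i) : ℂ) -
      (-1 : ℂ) ^ n * x ((V.drop i).take n) *
        (Sb b (F2.drop m ++ Zw αs ++ V.take i) : ℂ)‖ ≤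
      X * (C * rb b ^ (F2.length - m)) := by
    intro n hn
    have hn' := Finset.mem_range.1 hn
    have h3 : V.drop (i + n) = (c ++ p ++ F1 ++ F2.take m).drop (i + n) ++ F2.drop m := by
      have h4 : V = (c ++ p ++ F1 ++ F2.take m) ++ F2.drop m := by
        rw [hV]
        simp only [List.append_assoc, List.take_append_drop]
      have h5 : (c ++ p ++ F1 ++ F2.take m).length = c.length + 2 + F1.length + m := by
        simp only [List.length_append, hp2, List.length_take]
        omega
      conv_lhs => rw [h4]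
      rw [List.drop_append_of_le_length (by omega)]
    set v := (c ++ p ++ F1 ++ F2.take m).drop (i + n) with hv
    set u := F2.drop m ++ Zw αs ++ V.take i with hu
    have hvW : W23 v := (((hc.append hp).append h1).append (h2.take m)).drop _
    have huW : W023 u := ((h2.drop m).to0.append (W023_Zw hα)).append (hVW.take _).to0
    have h6 : V.drop (i + n) ++ Zw αs ++ V.take i = v ++ u := by
      rw [h3, hu]
      simp only [List.append_assoc]
    rw [h6, ← mul_sub, norm_mul, norm_mul, norm_pow, norm_neg, norm_one, one_pow, one_mul]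
    have h7 : ‖x ((V.drop i).take n)‖ ≤ X := by
      apply hX _ ((hVW.drop _).take _)
      rw [List.length_take]
      omega
    have h8 : ‖((Sb b (v ++ u) : ℝ) : ℂ) - ((Sb b u : ℝ) : ℂ)‖ ≤
        C * rb b ^ (F2.length - m) := by
      rw [← Complex.ofReal_sub, Complex.norm_real, Real.norm_eq_abs]
      obtain ⟨h9, h10⟩ := And.intro (hB.lower hvW huW) (hB.upper hvW huW)
      rw [abs_of_nonneg (by linarith)]
      have h11 : rb b ^ u.length ≤ rb b ^ (F2.length - m) := by
        apply pow_le_pow_of_le_one (rb_nonneg b) (rb_le_one b)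
        rw [hu]
        simp only [List.length_append, List.length_drop]
        omega
      have h12 := mul_le_mul_of_nonneg_left h11 hB.hC
      linarith
    exact mul_le_mul h7 h8 (norm_nonneg _) ((norm_nonneg _).trans h7)
  refine (Finset.sum_le_sum hb).trans ?_
  rw [Finset.sum_const, Finset.card_range, nsmul_eq_mul, mul_assoc]


end Pool.Agent.ZO
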