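import Pool.Agent.LibZO31.Z5
import Pool.Agent.LibZO31.Defs2

set_option autoImplicit false

namespace Pool.Agent.ZO

open scoped ENNReal
open Pool.Agent.HF


open Finset

theorem regroupc {b : ℕ} (hb : 1 ≤ b) (x : List ℕ → ℂ) (m : ℕ) {c F1 F2 u : List ℕ} (hc : W23 c) (h1 : W23 F1)
    (h2 : W23 F2) (hu : W023 u) :
    ∑ i ∈ range (c.length + 2 + F1.length),
      (E0 x m ((c ++ [3, 2] ++ F1 ++ F2).drop i) *
          (Sb b (u ++ (c ++ [3, 2] ++ F1 ++ F2).take i) : ℂ) -
        E0 x m ((c ++ [2, 3] ++ F1 ++ F2).drop i) *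
          (Sb b (u ++ (c ++ [2, 3] ++ F1 ++ F2).take i) : ℂ)) =
      ∑ r ∈ range (c.length + 3 + F1.length),
        cf x m c (F1 ++ F2) r * (Sb b (u ++ tw c (F1 ++ F2) r) : ℂ) := by
  have hF : W23 (F1 ++ F2) := h1.append h2
  set F := F1 ++ F2 with hFdef
  have e32 : c ++ [3, 2] ++ F1 ++ F2 = c ++ 3 :: 2 :: F := by simp [hFdef]
  have e23 : c ++ [2, 3] ++ F1 ++ F2 = c ++ 2 :: 3 :: F := by simp [hFdef]
  rw [e32, e23]
  have r1 : c.length + 2 + F1.length = (c.length + 1 + 1) + F1.length := by ring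
  have r2 : c.length + 3 + F1.length = (c.length + 1 + 1 + 1) + F1.length := by ring
  rw [r1, r2, sum_range_add _ (c.length + 1 + 1) F1.length,
    sum_range_add _ (c.length + 1 + 1 + 1) F1.length, sum_range_succ _ (c.length + 1 + 1),
    sum_range_succ _ (c.length + 1), sum_range_succ _ (c.length + 1)]
  -- the first part
  have p1 : ∀ i ∈ range (c.length + 1),
      E0 x m ((c ++ 3 :: 2 :: F).drop i) * (Sb b (u ++ (c ++ 3 :: 2 :: F).take i) : ℂ) -
        E0 x m ((c ++ 2 :: 3 :: F).drop i) * (Sb b (u ++ (c ++ 2 :: 3 :: F).take i) : ℂ) =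
      cf x m c F i * (Sb b (u ++ tw c F i) : ℂ) := by
    intro i hi
    have hi' : i ≤ c.length := Nat.lt_succ_iff.1 (mem_range.1 hi)
    rw [List.drop_append_of_le_length hi', List.drop_append_of_le_length hi',
      List.take_append_of_le_length hi', List.take_append_of_le_length hi']
    rw [cf, tw, if_pos hi', if_pos hi']
    ring
  -- the middle
  have d1 : ∀ p q : ℕ, (c ++ p :: q :: F).drop (c.length + 1) = q :: F := by
    intro p q
    rw [List.drop_append, List.drop_eq_nil_of_le (by omega)]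
    simp
  have t1 : ∀ p q : ℕ, (c ++ p :: q :: F).take (c.length + 1) = c ++ [p] := by
    intro p q
    rw [List.take_append, List.take_of_length_le (by omega)]
    simp
  have p2 : E0 x m ((c ++ 3 :: 2 :: F).drop (c.length + 1)) *
        (Sb b (u ++ (c ++ 3 :: 2 :: F).take (c.length + 1)) : ℂ) -
      E0 x m ((c ++ 2 :: 3 :: F).drop (c.length + 1)) *
        (Sb b (u ++ (c ++ 2 :: 3 :: F).take (c.length + 1)) : ℂ) =
      cf x m c F (c.length + 1) * (Sb b (u ++ tw c F (c.length + 1)) : ℂ) +
        cf x m c F (c.length + 1 + 1) * (Sb b (u ++ tw c F (c.length + 1 + 1)) : ℂ) := by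
    rw [d1, d1, t1, t1]
    have c1 : cf x m c F (c.length + 1) = - E0 x m (3 :: F) := by
      rw [cf, if_neg (by omega), if_pos rfl]
    have c2 : cf x m c F (c.length + 1 + 1) = E0 x m (2 :: F) := by
      rw [cf, if_neg (by omega), if_neg (by omega), if_pos (by omega)]
    have w1 : tw c F (c.length + 1) = c ++ [2] := by
      rw [tw, if_neg (by omega), if_pos rfl]
    have w2 : tw c F (c.length + 1 + 1) = c ++ [3] := by
      rw [tw, if_neg (by omega), if_neg (by omega), if_pos (by omega)]
    rw [c1, c2, w1, w2]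
    ring
  -- the last part
  have p3 : ∀ s ∈ range F1.length,
      E0 x m ((c ++ 3 :: 2 :: F).drop (c.length + 1 + 1 + s)) *
        (Sb b (u ++ (c ++ 3 :: 2 :: F).take (c.length + 1 + 1 + s)) : ℂ) -
      E0 x m ((c ++ 2 :: 3 :: F).drop (c.length + 1 + 1 + s)) *
        (Sb b (u ++ (c ++ 2 :: 3 :: F).take (c.length + 1 + 1 + s)) : ℂ) =
      cf x m c F (c.length + 1 + 1 + 1 + s) *
        (Sb b (u ++ tw c F (c.length + 1 + 1 + 1 + s)) : ℂ) := by
    intro s _
    have d2 : ∀ p q : ℕ, (c ++ p :: q :: F).drop (c.length + 1 + 1 + s) = F.drop s := by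
      intro p q
      rw [List.drop_append, List.drop_eq_nil_of_le (by omega)]
      have : c.length + 1 + 1 + s - c.length = s + 1 + 1 := by omega
      rw [this]
      simp
    have t2 : ∀ p q : ℕ, (c ++ p :: q :: F).take (c.length + 1 + 1 + s) =
        c ++ p :: q :: F.take s := by
      intro p q
      rw [List.take_append, List.take_of_length_le (by omega)]
      have : c.length + 1 + 1 + s - c.length = s + 1 + 1 := by omega
      rw [this]
      simp
    rw [d2, d2, t2, t2]
    have hs := Sb_comm hb (u := u ++ c) (v := F.take s) (hu.append hc.to0) (hF.take s).to0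
    rw [← List.append_assoc, ← List.append_assoc, hs]
    have hr : c.length + 1 + 1 + 1 + s - c.length - 3 = s := by omega
    have c1 : cf x m c F (c.length + 1 + 1 + 1 + s) = E0 x m (F.drop s) := by
      rw [cf, if_neg (by omega), if_neg (by omega), if_neg (by omega), hr]
    have w1 : tw c F (c.length + 1 + 1 + 1 + s) = c ++ 0 :: F.take s := by
      rw [tw, if_neg (by omega), if_neg (by omega), if_neg (by omega), hr]
    rw [c1, w1, ← List.append_assoc]
    push_cast
    ring
  rw [sum_congr rfl p1, p2, sum_congr rfl p3]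
  ring


end Pool.Agent.ZO
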