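import Pool.Agent.LibZO31.W1c
import Pool.Agent.LibZO31.W3c
import Pool.Agent.LibZO31.W4c
import Pool.Agent.LibZO31.W5c

set_option autoImplicit false

namespace Pool.Agent.ZO

open scoped ENNReal
open Pool.Agent.HF


open Finset

theorem main_estc {b : ℕ} (hb : 1 ≤ b) {C : ℝ} (hB : Bd b C) {x Y : List ℕ → ℂ} (hI : CIc b x Y) (hY : PermInv Y) {m : ℕ} {X : ℝ}
    (hX : ∀ u, W23 u → u.length ≤ m → ‖x u‖ ≤ X) {c F1 F2 : List ℕ} {αs : List (List ℕ)}
    (hc : W23 c) (h1 : W23 F1) (h2 : W23 F2) (hα : ∀ α ∈ αs, W23 α) (hcm : c.length = m)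
    (hm : m ≤ F2.length)
    (hg : ∀ (e : Bool) (es : List Bool), es.length = αs.length →
      Good x m (c ++ site e ++ F1 ++ F2 ++ wd es αs)) :
    ‖∑ r ∈ range (c.length + 3 + F1.length),
      cf x m c (F1 ++ F2) r * (Sb b (F2.drop m ++ Zw αs ++ tw c (F1 ++ F2) r) : ℂ)‖ ≤
      2 ^ αs.length * ((F2.length + (αs.flatten.length + 2 * αs.length) : ℕ) *
        (((m + 1 : ℕ) : ℝ) * X * (C * rb b ^ F1.length))) +
      2 * ((c.length + 2 + F1.length : ℕ) * (((m + 1 : ℕ) : ℝ) * X * (C * rb b ^ (F2.length - m)))) := by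
  have hp32 : W23 [3, 2] := W23_site false
  have hp23 : W23 [2, 3] := W23_site true
  obtain ⟨N₁, hN₁⟩ : ∃ N, N = c.length + 2 + F1.length := ⟨_, rfl⟩
  obtain ⟨N₂, hN₂⟩ : ∃ N, N = F2.length + (αs.flatten.length + 2 * αs.length) := ⟨_, rfl⟩
  obtain ⟨A, hA⟩ : ∃ A : ℕ → List ℕ → ℂ, A = fun i w =>
    Dic b x m (c ++ [3, 2] ++ F1 ++ F2 ++ w) i - Dic b x m (c ++ [2, 3] ++ F1 ++ F2 ++ w) i := ⟨_, rfl⟩
  have hzero : ∑ i ∈ range (N₁ + N₂), mix αs (A i) = 0 := by
    rw [← mix_sum, ← mix_zero αs]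
    refine mix_congr αs fun es hes => ?_
    have hw := W23_wd hα es
    have hlw := length_wd hes
    have key : ∀ p : List ℕ, p.length = 2 → W23 p → p ≠ [] →
        Good x m (c ++ p ++ F1 ++ F2 ++ wd es αs) →
        ∑ i ∈ range (N₁ + N₂), Dic b x m (c ++ p ++ F1 ++ F2 ++ wd es αs) i =
          Y (c ++ p ++ F1 ++ F2 ++ wd es αs) := by
      intro p hp hpw hp0 hgp
      have hlen : (c ++ p ++ F1 ++ F2 ++ wd es αs).length = N₁ + N₂ := by
        simp only [List.length_append, hp, hlw, hN₁, hN₂]; ring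
      have := DDc_eq hI (L := c ++ p ++ F1 ++ F2 ++ wd es αs) (by
          intro h
          simp only [List.append_eq_nil_iff] at h
          exact hp0 h.1.1.1.2)
        ((((hc.append hpw).append h1).append h2).append hw) (m := m) (by rw [hlen, hN₂]; omega) hgp
      rw [← this]
      unfold DDc
      rw [hlen]
    have k1 := key [3, 2] rfl hp32 (by simp) (hg false es hes)
    have k2 := key [2, 3] rfl hp23 (by simp) (hg true es hes)
    have hs : Y (c ++ [3, 2] ++ F1 ++ F2 ++ wd es αs) = Y (c ++ [2, 3] ++ F1 ++ F2 ++ wd es αs) := by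
      apply hY
      apply List.Perm.append_right
      apply List.Perm.append_right
      apply List.Perm.append_right
      apply List.Perm.append_left
      exact List.Perm.swap 2 3 []
    show ∑ i ∈ range (N₁ + N₂), A i (wd es αs) = 0
    rw [hA]
    simp only
    rw [Finset.sum_sub_distrib, k1, k2, hs, sub_self]
  rw [Finset.sum_range_add] at hzero
  have hII : ‖∑ i ∈ range N₂, mix αs (A (N₁ + i))‖ ≤
      2 ^ αs.length * (N₂ * (((m + 1 : ℕ) : ℝ) * X * (C * rb b ^ F1.length))) := by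
    have h3 : ∀ i ∈ range N₂, ‖mix αs (A (N₁ + i))‖ ≤
        2 ^ αs.length * (((m + 1 : ℕ) : ℝ) * X * (C * rb b ^ F1.length)) := by
      intro i hi
      rw [Finset.mem_range] at hi
      refine mix_norm αs fun es hes => ?_
      rw [hA]
      refine rangeIIc hb hB hX hc h1 h2 (W23_wd hα es) hcm.ge (by omega) ?_
      rw [length_wd hes]
      omega
    refine (norm_sum_le_of_le _ h3).trans ?_
    rw [Finset.sum_const, Finset.card_range, nsmul_eq_mul]
    apply le_of_eq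
    ring
  have hI' : ‖∑ i ∈ range N₁, mix αs (A i) -
      ∑ r ∈ range (c.length + 3 + F1.length),
      cf x m c (F1 ++ F2) r * (Sb b (F2.drop m ++ Zw αs ++ tw c (F1 ++ F2) r) : ℂ)‖ ≤
      2 * (N₁ * (((m + 1 : ℕ) : ℝ) * X * (C * rb b ^ (F2.length - m)))) := by
    have hu : W023 (F2.drop m ++ Zw αs) := ((h2.drop m).to0).append (W023_Zw hα)
    rw [← regroupc hb x m hc h1 h2 hu, ← hN₁, ← Finset.sum_sub_distrib]
    have h4 : ∀ i ∈ range N₁, ‖mix αs (A i) -
        (E0 x m ((c ++ [3, 2] ++ F1 ++ F2).drop i) *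
          (Sb b (F2.drop m ++ Zw αs ++ (c ++ [3, 2] ++ F1 ++ F2).take i) : ℂ) -
        E0 x m ((c ++ [2, 3] ++ F1 ++ F2).drop i) *
          (Sb b (F2.drop m ++ Zw αs ++ (c ++ [2, 3] ++ F1 ++ F2).take i) : ℂ))‖ ≤
        2 * (((m + 1 : ℕ) : ℝ) * X * (C * rb b ^ (F2.length - m))) := by
      intro i hi
      rw [Finset.mem_range, hN₁] at hi
      have a1 := rangeIc hb hB hX (p := [3, 2]) hc h1 h2 hp32 hα rfl hm hi
      have a2 := rangeIc hb hB hX (p := [2, 3]) hc h1 h2 hp23 hα rfl hm hi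
      have a3 : mix αs (A i) = mix αs (fun w => Dic b x m (c ++ [3, 2] ++ F1 ++ F2 ++ w) i) -
          mix αs (fun w => Dic b x m (c ++ [2, 3] ++ F1 ++ F2 ++ w) i) := by
        rw [hA, ← mix_sub]
      rw [a3]
      have a4 := norm_sub_le
        (mix αs (fun w => Dic b x m (c ++ [3, 2] ++ F1 ++ F2 ++ w) i) -
          E0 x m ((c ++ [3, 2] ++ F1 ++ F2).drop i) *
            (Sb b (F2.drop m ++ Zw αs ++ (c ++ [3, 2] ++ F1 ++ F2).take i) : ℂ))
        (mix αs (fun w => Dic b x m (c ++ [2, 3] ++ F1 ++ F2 ++ w) i) -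
          E0 x m ((c ++ [2, 3] ++ F1 ++ F2).drop i) *
            (Sb b (F2.drop m ++ Zw αs ++ (c ++ [2, 3] ++ F1 ++ F2).take i) : ℂ))
      refine le_trans (le_of_eq ?_) (a4.trans ?_)
      · congr 1; ring
      · linarith
    refine (norm_sum_le_of_le _ h4).trans ?_
    rw [Finset.sum_const, Finset.card_range, nsmul_eq_mul]
    apply le_of_eq
    ring
  have hfin : ∑ r ∈ range (c.length + 3 + F1.length),
      cf x m c (F1 ++ F2) r * (Sb b (F2.drop m ++ Zw αs ++ tw c (F1 ++ F2) r) : ℂ) =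
      - (∑ i ∈ range N₂, mix αs (A (N₁ + i))) -
      (∑ i ∈ range N₁, mix αs (A i) -
      ∑ r ∈ range (c.length + 3 + F1.length),
      cf x m c (F1 ++ F2) r * (Sb b (F2.drop m ++ Zw αs ++ tw c (F1 ++ F2) r) : ℂ)) := by
    linear_combination hzero
  rw [hfin, ← hN₁, ← hN₂]
  refine (norm_sub_le _ _).trans ?_
  rw [norm_neg]
  exact add_le_add hII hI'


end Pool.Agent.ZO
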