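import Pool.Agent.LibZO31.Defs

set_option autoImplicit false

namespace Pool.Agent.ZO

open scoped ENNReal
open Pool.Agent.HF

open Finset

theorem smallc (m k Λ : ℕ) (X ε C ρ : ℝ) (hX : 0 ≤ X) (hε : 0 < ε) (hC : 0 ≤ C) (hρ : 0 < ρ) (hρ1 : ρ < 1) :
    ∃ ℓ₀ : ℕ, m ≤ ℓ₀ ∧ ∀ a b : ℕ, ℓ₀ ≤ a → a ≤ b → b ≤ a + 1 → ∀ s : ℕ, s ≤ Λ →
      2 ^ k * ((b + (s + 2 * k) : ℕ) * (X * (C * ρ ^ a))) +
        2 * ((m + 2 + a : ℕ) * (X * (C * ρ ^ (b - m)))) < ε := by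
  set K : ℝ := 2 ^ k * C * X + 2 * C * X * (ρ⁻¹) ^ m with hK
  set D : ℝ := 1 + Λ + 2 * k + m + 2 with hD
  have hlim : Filter.Tendsto (fun a : ℕ => K * ((a : ℝ) * ρ ^ a + D * ρ ^ a))
      Filter.atTop (nhds (K * (0 + D * 0))) := by
    refine Filter.Tendsto.const_mul K (Filter.Tendsto.add ?_ (Filter.Tendsto.const_mul D ?_))
    · exact tendsto_self_mul_const_pow_of_lt_one hρ.le hρ1
    · exact tendsto_pow_atTop_nhds_zero_of_lt_one hρ.le hρ1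
  rw [mul_zero, add_zero, mul_zero] at hlim
  obtain ⟨ℓ₁, hℓ₁⟩ := Filter.eventually_atTop.1 (hlim.eventually_lt_const hε)
  refine ⟨max m ℓ₁, le_max_left _ _, fun a b ha hab hba s hs => ?_⟩
  have ha1 : ℓ₁ ≤ a := le_trans (le_max_right _ _) ha
  have ham : m ≤ a := le_trans (le_max_left _ _) ha
  refine lt_of_le_of_lt ?_ (hℓ₁ a ha1)
  have hpa : 0 < ρ ^ a := by positivity
  have h1 : ((b + (s + 2 * k) : ℕ) : ℝ) ≤ a + D := by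
    have h2 : (b : ℝ) ≤ a + 1 := by exact_mod_cast hba
    have h3 : (s : ℝ) ≤ Λ := by exact_mod_cast hs
    push_cast
    rw [hD]
    have h4 : (0 : ℝ) ≤ m := Nat.cast_nonneg m
    linarith
  have h2 : ((m + 2 + a : ℕ) : ℝ) ≤ a + D := by
    push_cast
    rw [hD]
    have h4 : (0 : ℝ) ≤ Λ := Nat.cast_nonneg Λ
    have h5 : (0 : ℝ) ≤ k := Nat.cast_nonneg k
    linarith
  have h3 : ρ ^ (b - m) ≤ (ρ⁻¹) ^ m * ρ ^ a := by
    have h4 : ρ ^ (b - m) ≤ ρ ^ (a - m) :=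
      pow_le_pow_of_le_one hρ.le hρ1.le (by omega)
    have h5 : (ρ⁻¹) ^ m * ρ ^ a = ρ ^ (a - m) := by
      have h6 : ρ ^ a = ρ ^ m * ρ ^ (a - m) := by
        rw [← pow_add]
        congr 1
        omega
      rw [h6, ← mul_assoc, ← mul_pow, inv_mul_cancel₀ hρ.ne', one_pow, one_mul]
    rw [h5]
    exact h4
  have hD0 : 0 ≤ (a : ℝ) + D := le_trans (Nat.cast_nonneg _) h1
  calc 2 ^ k * (((b + (s + 2 * k) : ℕ) : ℝ) * (X * (C * ρ ^ a))) +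
        2 * (((m + 2 + a : ℕ) : ℝ) * (X * (C * ρ ^ (b - m))))
      ≤ 2 ^ k * ((a + D) * (X * (C * ρ ^ a))) +
        2 * ((a + D) * (X * (C * ((ρ⁻¹) ^ m * ρ ^ a)))) := by
        gcongr
    _ = K * ((a : ℝ) * ρ ^ a + D * ρ ^ a) := by
        rw [hK]
        ring


end Pool.Agent.ZO
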