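import Pool.Agent.LibZO31.Z3

/-!
[ZO Z4] the structure `Bd`.

PLAN (compare `LibHF31/B5.lean`: `S_begin`, `S_zero_le`).  `κ1` from `ph_bdb`, `κ2` from `ph_beginb`.  Everything is finite (`Pool.Agent.HF.ph_fin`, `b ≥ 1`).
`lower`: `ph_append`, `ph_beginb'` with `g = ph u 1`, multiplied by `b^(wt u)` (`wt_append`).
`upper`: `ph_beginb` with `g = ph u 1` and `M = sup`: for `l ≥ b + 1`, `b^(wt u) * ph u 1 l ≤ κ1 ρ^(length u)` (`ph_bdb`, `f = 1`, `B = 1`), so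
`b^(wt u) * (κ2 * M) ≤ κ2 κ1 ρ^(length u)` with `M = (b^(wt u))⁻¹ κ1 ρ^(length u)`.
`zero`: `ph (v ++ 0 :: u) 1 b = ph v (Q (ph u 1)) b`; for `l ≥ b`: `Q (ph u 1) l ≤ Q (fun _ => M) l ≤ P 3 (P 2 (fun _ => M)) l ≤ 4 M` (`Q_mono`: only the values at `≥ l + 1 ≥ b + 1` matter; `Q_le_PP`;
`P_le` twice, `2 * l⁻¹ ≤ 2`), so by `ph_beginb` `b^(wt v) * ph v (Q (ph u 1)) b ≤ 4 M + κ2 * 4 M`; multiply by `b^5 * b^(wt u)`.
`C` = maximum of the two real constants (`ENNReal.toReal`).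
-/

set_option autoImplicit false

namespace Pool.Agent.ZO

open scoped ENNReal
open Finset
open Pool.Agent.HF

private noncomputable def z4_T (b : ℕ) (u : List ℕ) : ℝ≥0∞ :=
  (b : ℝ≥0∞) ^ wt u * ph u (fun _ => 1) b

private theorem z4_Sb (b : ℕ) (u : List ℕ) : Sb b u = (z4_T b u).toReal := by
  unfold Sb z4_T
  rw [ENNReal.toReal_mul, ENNReal.toReal_pow, ENNReal.toReal_natCast]

private theorem z4_fin {b : ℕ} (hb : 1 ≤ b) {u : List ℕ} (hu : W023 u) : z4_T b u ≠ ⊤ :=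
  ENNReal.mul_ne_top (ENNReal.pow_ne_top (ENNReal.natCast_ne_top b)) (ph_fin hu hb).ne

private theorem z4_ofReal (b n : ℕ) : (ENNReal.ofReal (rb b) ^ n).toReal = rb b ^ n := by
  rw [ENNReal.toReal_pow, ENNReal.toReal_ofReal (rb_nonneg b)]

private theorem z4_inv {l : ℕ} (hl : 1 ≤ l) : (l : ℝ≥0∞)⁻¹ ≤ 1 := by
  rw [ENNReal.inv_le_one]
  exact_mod_cast hl

private theorem z4_P {n : ℕ} (hn : 2 ≤ n) {l : ℕ} (hl : 1 ≤ l) {f : ℕ → ℝ≥0∞} {B : ℝ≥0∞}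
    (h : ∀ k, l ≤ k → f k ≤ B) : P n f l ≤ 2 * B := by
  refine (P_le hn hl h).trans ?_
  calc 2 * (l : ℝ≥0∞)⁻¹ * B ≤ 2 * 1 * B := by
        gcongr
        exact z4_inv hl
    _ = 2 * B := by rw [mul_one]

private theorem z4_Q {b : ℕ} (hb : 1 ≤ b) {g : ℕ → ℝ≥0∞} {M : ℝ≥0∞}
    (hg : ∀ l, b + 1 ≤ l → g l ≤ M) {l : ℕ} (hl : b ≤ l) : Q g l ≤ 4 * M := by
  have h1 : Q g l ≤ Q (fun _ => M) l := Q_mono fun k hk => hg k (by omega)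
  have h2 : P 3 (P 2 fun _ => M) l ≤ 2 * (2 * M) :=
    z4_P (by norm_num) (hb.trans hl) fun k hk =>
      z4_P le_rfl (hb.trans (hl.trans hk)) fun _ _ => le_rfl
  refine h1.trans ((Q_le_PP _ l (hb.trans hl)).trans (h2.trans (le_of_eq ?_)))
  rw [← mul_assoc]
  norm_num

theorem exists_Bd (b : ℕ) (hb : 1 ≤ b) : ∃ C : ℝ, Bd b C := by
  obtain ⟨κ1, hκ1, h1⟩ := ph_bdb b hb
  obtain ⟨κ2, hκ2, h2⟩ := ph_beginb b hb
  have hb0 : (b : ℝ≥0∞) ≠ 0 := by exact_mod_cast (by omega : b ≠ 0)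
  have hbt : (b : ℝ≥0∞) ≠ ⊤ := ENNReal.natCast_ne_top b
  have hp0 : ∀ n : ℕ, (b : ℝ≥0∞) ^ n ≠ 0 := fun n => pow_ne_zero n hb0
  have hpt : ∀ n : ℕ, (b : ℝ≥0∞) ^ n ≠ ⊤ := fun n => ENNReal.pow_ne_top hbt
  have hM : ∀ {u : List ℕ}, W023 u → ∀ l, b + 1 ≤ l → ph u (fun _ => 1) l ≤
      ((b : ℝ≥0∞) ^ wt u)⁻¹ * (κ1 * ENNReal.ofReal (rb b) ^ u.length) := by
    intro u hu l hl
    have h3 := h1 hu (f := fun _ => 1) (B := 1) (fun _ _ => le_rfl) hl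
    rw [mul_one] at h3
    calc ph u (fun _ => 1) l = ((b : ℝ≥0∞) ^ wt u)⁻¹ * ((b : ℝ≥0∞) ^ wt u * ph u (fun _ => 1) l) := by
          rw [← mul_assoc, ENNReal.inv_mul_cancel (hp0 _) (hpt _), one_mul]
      _ ≤ _ := by gcongr
  have hup : ∀ {v u : List ℕ}, W23 v → W023 u →
      z4_T b (v ++ u) ≤ z4_T b u + (κ2 * κ1) * ENNReal.ofReal (rb b) ^ u.length := by
    intro v u hv hu
    unfold z4_T
    rw [wt_append, ph_append]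
    calc (b : ℝ≥0∞) ^ (wt v + wt u) * ph v (ph u fun _ => 1) b =
        (b : ℝ≥0∞) ^ wt u * ((b : ℝ≥0∞) ^ wt v * ph v (ph u fun _ => 1) b) := by
          rw [pow_add]; ring
      _ ≤ (b : ℝ≥0∞) ^ wt u * (ph u (fun _ => 1) b + κ2 * (((b : ℝ≥0∞) ^ wt u)⁻¹ *
          (κ1 * ENNReal.ofReal (rb b) ^ u.length))) := by
          gcongr
          exact h2 hv (hM hu)
      _ = (b : ℝ≥0∞) ^ wt u * ph u (fun _ => 1) b + ((b : ℝ≥0∞) ^ wt u * ((b : ℝ≥0∞) ^ wt u)⁻¹) *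
          (κ2 * κ1 * ENNReal.ofReal (rb b) ^ u.length) := by ring
      _ = _ := by rw [ENNReal.mul_inv_cancel (hp0 _) (hpt _), one_mul]
  have hlo : ∀ {v u : List ℕ}, W23 v → W023 u → z4_T b u ≤ z4_T b (v ++ u) := by
    intro v u hv _
    unfold z4_T
    rw [wt_append, ph_append]
    calc (b : ℝ≥0∞) ^ wt u * ph u (fun _ => 1) b ≤
        (b : ℝ≥0∞) ^ wt u * ((b : ℝ≥0∞) ^ wt v * ph v (ph u fun _ => 1) b) := by
          gcongr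
          exact ph_beginb' hb hv _
      _ = _ := by rw [pow_add]; ring
  have hze : ∀ {v u : List ℕ}, W23 v → W023 u → z4_T b (v ++ 0 :: u) ≤
      ((b : ℝ≥0∞) ^ 5 * (4 * ((1 + κ2) * κ1))) * ENNReal.ofReal (rb b) ^ u.length := by
    intro v u hv hu
    have h3 := h2 hv (g := Q (ph u fun _ => 1)) (M := 4 * (((b : ℝ≥0∞) ^ wt u)⁻¹ *
      (κ1 * ENNReal.ofReal (rb b) ^ u.length))) fun l hl => z4_Q hb (hM hu) (by omega)
    have h4 := z4_Q hb (hM hu) (le_refl b)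
    have e1 : ph (0 :: u) (fun _ => 1) = Q (ph u fun _ => 1) := by simp [ph, op]
    have e2 : wt (0 :: u) = 5 + wt u := by rw [wt_cons, if_pos rfl]
    unfold z4_T
    rw [wt_append, ph_append, e1, e2]
    calc (b : ℝ≥0∞) ^ (wt v + (5 + wt u)) * ph v (Q (ph u fun _ => 1)) b =
        (b : ℝ≥0∞) ^ 5 * ((b : ℝ≥0∞) ^ wt u * ((b : ℝ≥0∞) ^ wt v *
          ph v (Q (ph u fun _ => 1)) b)) := by
          rw [pow_add, pow_add]; ring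
      _ ≤ (b : ℝ≥0∞) ^ 5 * ((b : ℝ≥0∞) ^ wt u * (Q (ph u fun _ => 1) b + κ2 *
          (4 * (((b : ℝ≥0∞) ^ wt u)⁻¹ * (κ1 * ENNReal.ofReal (rb b) ^ u.length))))) := by
          gcongr
      _ ≤ (b : ℝ≥0∞) ^ 5 * ((b : ℝ≥0∞) ^ wt u * (4 * (((b : ℝ≥0∞) ^ wt u)⁻¹ *
          (κ1 * ENNReal.ofReal (rb b) ^ u.length)) + κ2 *
          (4 * (((b : ℝ≥0∞) ^ wt u)⁻¹ * (κ1 * ENNReal.ofReal (rb b) ^ u.length))))) := by
          gcongr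
      _ = ((b : ℝ≥0∞) ^ wt u * ((b : ℝ≥0∞) ^ wt u)⁻¹) * (((b : ℝ≥0∞) ^ 5 *
          (4 * ((1 + κ2) * κ1))) * ENNReal.ofReal (rb b) ^ u.length) := by ring
      _ = _ := by rw [ENNReal.mul_inv_cancel (hp0 _) (hpt _), one_mul]
  have hK1 : κ2 * κ1 ≠ ⊤ := ENNReal.mul_ne_top hκ2 hκ1
  have hK2 : (b : ℝ≥0∞) ^ 5 * (4 * ((1 + κ2) * κ1)) ≠ ⊤ :=
    ENNReal.mul_ne_top (hpt 5) (ENNReal.mul_ne_top (by norm_num)
      (ENNReal.mul_ne_top (ENNReal.add_ne_top.2 ⟨by norm_num, hκ2⟩) hκ1))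
  have hρt : ∀ n : ℕ, ENNReal.ofReal (rb b) ^ n ≠ ⊤ := fun n =>
    ENNReal.pow_ne_top ENNReal.ofReal_ne_top
  refine ⟨max (κ2 * κ1).toReal ((b : ℝ≥0∞) ^ 5 * (4 * ((1 + κ2) * κ1))).toReal,
    le_max_of_le_left ENNReal.toReal_nonneg, fun {v u} hv hu => ?_, fun {v u} hv hu => ?_,
    fun {v u} hv hu => ?_⟩
  · rw [z4_Sb, z4_Sb]
    exact ENNReal.toReal_mono (z4_fin hb (hv.to0.append hu)) (hlo hv hu)
  · have h3 := ENNReal.toReal_mono (ENNReal.add_ne_top.2 ⟨z4_fin hb hu,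
      ENNReal.mul_ne_top hK1 (hρt u.length)⟩) (hup hv hu)
    rw [ENNReal.toReal_add (z4_fin hb hu) (ENNReal.mul_ne_top hK1 (hρt u.length)),
      ENNReal.toReal_mul, z4_ofReal, ← z4_Sb, ← z4_Sb] at h3
    refine h3.trans ?_
    have h4 := rb_nonneg b
    gcongr
    exact le_max_left _ _
  · have h3 := ENNReal.toReal_mono (ENNReal.mul_ne_top hK2 (hρt u.length)) (hze hv hu)
    rw [ENNReal.toReal_mul, z4_ofReal, ← z4_Sb] at h3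
    refine h3.trans ?_
    have h4 := rb_nonneg b
    gcongr
    exact le_max_right _ _

end Pool.Agent.ZO
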