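import Pool.Agent.LibZO31.W0c
import Pool.Agent.LibZO31.W6c
import Pool.Agent.LibZO31.W7c
import Pool.Agent.LibZO31.Z4

set_option autoImplicit false

namespace Pool.Agent.ZO

open scoped ENNReal
open Pool.Agent.HF
open Finset

private theorem W8c_Zw_length (αs : List (List ℕ)) :
    (Zw αs).length = αs.length + αs.flatten.length := by
  induction αs with
  | nil => simp [Zw]
  | cons α αs ih =>
    rw [Zw_cons]
    simp only [List.length_append, List.length_cons, List.flatten_cons, ih]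
    ring

theorem site_lemmac {b : ℕ} (hb : 1 ≤ b) (x Y : List ℕ → ℂ) (hI : CIc b x Y) (hY : PermInv Y) (m : ℕ) :
    ∃ k : ℕ, 1 ≤ k ∧ ∀ Λ H : ℕ, ∃ ℓ₀ : ℕ, ∀ (c F1 F2 : List ℕ) (αs : List (List ℕ)),
      W23 c → W23 F1 → W23 F2 → (∀ α ∈ αs, W23 α) → c.length = m → αs.length = k →
      αs.flatten.length ≤ Λ → ℓ₀ ≤ F1.length → F1.length ≤ F2.length →
      F2.length ≤ F1.length + 1 →
      (∀ (e : Bool) (es : List Bool), es.length = k →
        Good x m (c ++ site e ++ F1 ++ F2 ++ wd es αs)) →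
      E0 x m (3 :: (F1 ++ F2)) = 0 ∧ E0 x m (2 :: (F1 ++ F2)) = 0 ∧
        ∀ r ≤ H, E0 x m ((F1 ++ F2).drop r) = 0 := by
  obtain ⟨C, hB'⟩ := exists_Bd b hb
  have hbr : (1 : ℝ) ≤ (b : ℝ) ^ 3 := one_le_pow₀ (by exact_mod_cast hb)
  obtain ⟨X, hX0, hX⟩ := bound_x x m
  obtain ⟨δ, B, hδ, hB0, hce⟩ := cf_values x m
  obtain ⟨n, hn⟩ := exists_nat_ge (8 * B * (b : ℝ) ^ 3 / δ)
  obtain ⟨k, hk⟩ : ∃ k, k = n + 4 * b ^ 3 := ⟨_, rfl⟩
  have hkr : (k : ℝ) = n + 4 * (b : ℝ) ^ 3 := by rw [hk]; push_cast; ring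
  have hn0 : (0 : ℝ) ≤ n := Nat.cast_nonneg n
  have hkpos : (0 : ℝ) < (k : ℝ) + 1 := by rw [hkr]; linarith
  have hk1 : 1 ≤ k := by
    have : (1 : ℝ) ≤ k := by rw [hkr]; linarith
    exact_mod_cast this
  have hq : 2 * (b : ℝ) ^ 3 / ((k : ℝ) + 1) ≤ 1 / 2 := by
    rw [div_le_div_iff₀ hkpos (by norm_num)]
    linarith
  have hqB : 4 * B * (2 * (b : ℝ) ^ 3 / ((k : ℝ) + 1)) ≤ δ := by
    have h1 : 8 * B * (b : ℝ) ^ 3 ≤ δ * ((k : ℝ) + 1) := by
      rw [div_le_iff₀ hδ] at hn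
      have h2 : (n : ℝ) ≤ (k : ℝ) + 1 := by rw [hkr]; linarith
      calc 8 * B * (b : ℝ) ^ 3 ≤ n * δ := hn
        _ ≤ ((k : ℝ) + 1) * δ := mul_le_mul_of_nonneg_right h2 hδ.le
        _ = δ * ((k : ℝ) + 1) := mul_comm _ _
    have h3 : 4 * B * (2 * (b : ℝ) ^ 3 / ((k : ℝ) + 1)) = 8 * B * (b : ℝ) ^ 3 / ((k : ℝ) + 1) := by ring
    rw [h3, div_le_iff₀ hkpos]
    exact h1
  refine ⟨k, hk1, fun Λ H => ?_⟩
  obtain ⟨R, hR⟩ : ∃ R, R = m + 3 + H := ⟨_, rfl⟩
  obtain ⟨bs, hbs⟩ : ∃ t : ℝ, t = (((b + k + 1 : ℕ) : ℝ) ^ 6)⁻¹ := ⟨_, rfl⟩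
  have hbs0 : 0 < bs := by
    rw [hbs]; positivity
  have hbs1 : bs ≤ 1 := by
    rw [hbs]
    apply inv_le_one_of_one_le₀
    apply one_le_pow₀
    have : 1 ≤ b + k + 1 := by omega
    exact_mod_cast this
  obtain ⟨κ, hκ⟩ : ∃ κ, κ = bs ^ (Λ + k + (m + 1 + R)) := ⟨_, rfl⟩
  have hκ0 : 0 < κ := by rw [hκ]; positivity
  obtain ⟨ℓ₀, hℓm, hℓ⟩ := smallc m k Λ (((m + 1 : ℕ) : ℝ) * X) (δ * κ / 2) C (rb b) (mul_nonneg (Nat.cast_nonneg _) hX0) (by positivity) hB'.hC (rb_pos hb) (rb_lt_one b)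
  refine ⟨max ℓ₀ (H + 1), fun c F1 F2 αs hc h1 h2 hα hcm hαk hΛ hF1 hF12 hF21 hg => ?_⟩
  have hF1a : ℓ₀ ≤ F1.length := (le_max_left _ _).trans hF1
  have hF1b : H + 1 ≤ F1.length := (le_max_right _ _).trans hF1
  have hmF2 : m ≤ F2.length := hℓm.trans (hF1a.trans hF12)
  have hF : W23 (F1 ++ F2) := h1.append h2
  have hest := main_estc hb hB' hI hY hX hc h1 h2 hα hcm hmF2 (by rw [hαk]; exact hg)
  have hsm := hℓ F1.length F2.length hF1a hF12 hF21 αs.flatten.length hΛ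
  have hfw := first_wins (fun r => cf x m c (F1 ++ F2) r)
    (fun r => Sb b (F2.drop m ++ Zw αs ++ tw c (F1 ++ F2) r)) (c.length + 3 + F1.length) R δ B
    (2 * (b : ℝ) ^ 3 / ((k : ℝ) + 1)) κ _ hδ (by positivity) hq hqB (fun r => Sb_nonneg b _) (by
      intro r hr
      have := Sb_dom hb (r := r) (h2.drop m) hα hc hF (by
        rw [List.length_append]; omega)
      rw [hαk] at this
      exact this) (fun r => (hce c (F1 ++ F2) hc hF r).1) (fun r => (hce c (F1 ++ F2) hc hF r).2)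
    (by
      intro r hr _
      have hu : W023 (Zw αs ++ tw c (F1 ++ F2) r) := (W023_Zw hα).append (W023_tw hc hF r)
      have hcount : b + (Zw αs ++ tw c (F1 ++ F2) r).count 0 ≤ b + k + 1 := by
        rw [List.count_append, count_Zw hα, hαk]
        have := count_tw_le hc hF r
        omega
      have hlow := Sb_lower hb (v := F2.drop m) (h2.drop m) hu hcount
      rw [← List.append_assoc, ← hbs] at hlow
      refine le_trans ?_ hlow
      rw [hκ]
      apply pow_le_pow_of_le_one hbs0.le hbs1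
      rw [List.length_append, W8c_Zw_length, hαk]
      have := length_tw_le c (F1 ++ F2) r
      omega) hest (by
      rw [hαk, hcm]
      linarith)
  have hce1 := hfw (m + 1) (by omega) (by omega)
  have hce2 := hfw (m + 2) (by omega) (by omega)
  refine ⟨?_, ?_, fun s hs => ?_⟩
  · simp only [cf] at hce1
    rw [if_neg (by omega), if_pos (by omega)] at hce1
    exact neg_eq_zero.1 hce1
  · simp only [cf] at hce2
    rw [if_neg (by omega), if_neg (by omega), if_pos (by omega)] at hce2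
    exact hce2
  · have hce3 := hfw (m + 3 + s) (by omega) (by omega)
    simp only [cf] at hce3
    rw [if_neg (by omega), if_neg (by omega), if_neg (by omega)] at hce3
    have : m + 3 + s - c.length - 3 = s := by omega
    rw [this] at hce3
    exact hce3

end Pool.Agent.ZO
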