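import Pool.Agent.LibZO31.Defs

/-!
[ZO Z1] a supersolution above the level `b`.

PLAN.  Let `c = b (b + 1)` and `p l = ∏_{k = b+1}^{l-1} (1 - c / k²)` (real; `p l = 1` for `l ≤ b + 1`).  For `k ≥ b + 1`: `0 ≤ c / k² ≤ b / (b + 1) < 1`, so
`0 < p l ≤ 1`, decreasing, and `p k - p (k+1) = (c / k²) p k`.  Hence `∑_{k=j}^{M-1} (c / k²) p k = p j - p M ≤ p j` for all `M`, i.e. (in `ℝ≥0∞`, `ENNReal.tsum_le_of_sum_range_le`,
`ENNReal.ofReal`) `b² ∑_{k ≥ j} k^(-2) p k ≤ (b² / c) p j = rb b * p j`.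
Lower bound: choose `k₀ ≥ b + 1` with `∑_{k ≥ k₀} c / k² ≤ 1/2` (e.g. `k₀ = 2 c + 2`, as `∑_{k ≥ k₀} 1/k² ≤ 1/(k₀ - 1)`); `p l ≥ p k₀ * (1 - ∑_{k₀ ≤ k < l} c/k²) ≥ p k₀ / 2` for
`l ≥ k₀` (induction), and `p l ≥ p k₀` for `l ≤ k₀`.  So `κ = ENNReal.ofReal (2 / p k₀)`.
-/

set_option autoImplicit false

namespace Pool.Agent.ZO

open scoped ENNReal
open Finset
open Pool.Agent.HF

/-- The product `∏_{k = b+1}^{l-1} (1 - b (b + 1) / k ^ 2)`. -/
private noncomputable def z1_q (b l : ℕ) : ℝ :=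
  ∏ k ∈ Ico (b + 1) l, (1 - ((b : ℝ) * (b + 1)) / (k : ℝ) ^ 2)

private theorem z1_small {b l : ℕ} (h : l ≤ b + 1) : z1_q b l = 1 := by
  unfold z1_q
  rw [Ico_eq_empty (by omega), prod_empty]

private theorem z1_succ {b k : ℕ} (h : b + 1 ≤ k) :
    z1_q b (k + 1) = z1_q b k * (1 - ((b : ℝ) * (b + 1)) / (k : ℝ) ^ 2) := by
  unfold z1_q
  rw [prod_Ico_succ_top h]

private theorem z1_fac {b k : ℕ} (h : b + 1 ≤ k) :
    0 ≤ ((b : ℝ) * (b + 1)) / (k : ℝ) ^ 2 ∧ ((b : ℝ) * (b + 1)) / (k : ℝ) ^ 2 < 1 := by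
  have hk : (b : ℝ) + 1 ≤ k := by exact_mod_cast h
  have hb : (0 : ℝ) ≤ b := Nat.cast_nonneg b
  have hk0 : (0 : ℝ) < k := by linarith
  refine ⟨by positivity, ?_⟩
  rw [div_lt_one (by positivity)]
  nlinarith

private theorem z1_pos (b l : ℕ) : 0 < z1_q b l := by
  unfold z1_q
  refine prod_pos fun k hk => ?_
  have := z1_fac (mem_Ico.1 hk).1
  linarith [this.2]

private theorem z1_anti (b : ℕ) : Antitone (z1_q b) := by
  refine antitone_nat_of_succ_le fun k => ?_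
  by_cases h : b + 1 ≤ k
  · rw [z1_succ h]
    have h1 := z1_fac h
    have h2 := z1_pos b k
    nlinarith [h1.1]
  · rw [z1_small (by omega), z1_small (by omega)]

private theorem z1_le (b l : ℕ) : z1_q b l ≤ 1 := by
  by_cases h : b + 1 ≤ l
  · have h1 := z1_anti b h
    rwa [z1_small (b := b) le_rfl] at h1
  · rw [z1_small (by omega)]

/-- The lower bound above `K`. -/
private theorem z1_low (b K : ℕ) (hK : b + 1 ≤ K) (hK2 : 2 ≤ K) (l : ℕ) (hl : K ≤ l) :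
    z1_q b K * (1 - ((b : ℝ) * (b + 1)) / ((K : ℝ) - 1) + ((b : ℝ) * (b + 1)) / ((l : ℝ) - 1)) ≤
      z1_q b l := by
  induction l, hl using Nat.le_induction with
  | base =>
    have h1 : 1 - ((b : ℝ) * (b + 1)) / ((K : ℝ) - 1) + ((b : ℝ) * (b + 1)) / ((K : ℝ) - 1) = 1 := by
      ring
    rw [h1, mul_one]
  | succ l hl ih =>
    rw [z1_succ (hK.trans hl)]
    have hb : (0 : ℝ) ≤ (b : ℝ) * (b + 1) := by positivity
    have hf := z1_fac (hK.trans hl)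
    have hKr : (2 : ℝ) ≤ K := by exact_mod_cast hK2
    have hlr : (K : ℝ) ≤ l := by exact_mod_cast hl
    have h1 : ((b : ℝ) * (b + 1)) / ((l : ℝ) - 1) ≤ ((b : ℝ) * (b + 1)) / ((K : ℝ) - 1) :=
      div_le_div_of_nonneg_left hb (by linarith) (by linarith)
    have h2 : ((b : ℝ) * (b + 1)) / (((l + 1 : ℕ) : ℝ) - 1) ≤
        ((b : ℝ) * (b + 1)) / ((l : ℝ) - 1) - ((b : ℝ) * (b + 1)) / (l : ℝ) ^ 2 := by
      have hl0 : (0 : ℝ) < l := by linarith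
      have hl1 : (0 : ℝ) < (l : ℝ) - 1 := by linarith
      have e1 : ((l + 1 : ℕ) : ℝ) - 1 = l := by push_cast; ring
      rw [e1]
      have e2 : ((b : ℝ) * (b + 1)) / ((l : ℝ) - 1) - ((b : ℝ) * (b + 1)) / (l : ℝ) ^ 2 -
          ((b : ℝ) * (b + 1)) / (l : ℝ) = ((b : ℝ) * (b + 1)) / (((l : ℝ) - 1) * (l : ℝ) ^ 2) := by
        field_simp
        ring
      have e3 : 0 ≤ ((b : ℝ) * (b + 1)) / (((l : ℝ) - 1) * (l : ℝ) ^ 2) := by positivity
      linarith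
    have h3 := z1_pos b K
    set x := ((b : ℝ) * (b + 1)) / ((K : ℝ) - 1)
    set y := ((b : ℝ) * (b + 1)) / ((l : ℝ) - 1)
    set z := ((b : ℝ) * (b + 1)) / (l : ℝ) ^ 2
    set w := ((b : ℝ) * (b + 1)) / (((l + 1 : ℕ) : ℝ) - 1)
    have h4 : 1 - x + w ≤ (1 - x + y) * (1 - z) := by nlinarith [hf.1]
    calc z1_q b K * (1 - x + w) ≤ z1_q b K * ((1 - x + y) * (1 - z)) :=
          mul_le_mul_of_nonneg_left h4 h3.le
      _ = z1_q b K * (1 - x + y) * (1 - z) := by ring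
      _ ≤ z1_q b l * (1 - z) := mul_le_mul_of_nonneg_right ih (by linarith [hf.2])

private theorem z1_bd (b : ℕ) : ∃ m : ℝ, 0 < m ∧ ∀ l, m ≤ z1_q b l := by
  set K := 2 * (b * (b + 1)) + 2 + b with hKd
  have hc : ((b : ℝ) * (b + 1)) / ((K : ℝ) - 1) ≤ 1 / 2 := by
    have h1 : (K : ℝ) = 2 * ((b : ℝ) * (b + 1)) + 2 + b := by rw [hKd]; push_cast; ring
    have hb : (0 : ℝ) ≤ b := Nat.cast_nonneg b
    have hb2 : (0 : ℝ) ≤ (b : ℝ) * (b + 1) := by positivity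
    rw [div_le_iff₀ (by linarith), h1]
    linarith
  refine ⟨z1_q b K / 2, by have := z1_pos b K; linarith, fun l => ?_⟩
  by_cases h : K ≤ l
  · have h1 := z1_low b K (by omega) (by omega) l h
    have h2 : 0 ≤ ((b : ℝ) * (b + 1)) / ((l : ℝ) - 1) := by
      have h3 : (2 : ℝ) ≤ l := by exact_mod_cast (by omega : 2 ≤ l)
      have h4 : (0 : ℝ) < (l : ℝ) - 1 := by linarith
      positivity
    refine le_trans ?_ h1
    have h5 := z1_pos b K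
    nlinarith
  · have h1 := z1_anti b (not_le.1 h).le
    have h5 := z1_pos b K
    linarith

private theorem z1_term {b k : ℕ} (hb : 1 ≤ b) (h : b + 1 ≤ k) :
    (b : ℝ) ^ 2 * (((k : ℝ) ^ 2)⁻¹ * z1_q b k) = rb b * (z1_q b k - z1_q b (k + 1)) := by
  rw [z1_succ h]
  unfold rb
  have hb0 : (b : ℝ) ≠ 0 := by exact_mod_cast (by omega : b ≠ 0)
  have hb1 : (b : ℝ) + 1 ≠ 0 := by positivity
  have hk : (k : ℝ) ≠ 0 := by exact_mod_cast (by omega : k ≠ 0)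
  field_simp
  ring

private theorem z1_sum {b j : ℕ} (hb : 1 ≤ b) (h : b + 1 ≤ j) (n : ℕ) :
    ∑ i ∈ range n, (b : ℝ) ^ 2 * ((((j + i : ℕ) : ℝ) ^ 2)⁻¹ * z1_q b (j + i)) =
      rb b * (z1_q b j - z1_q b (j + n)) := by
  induction n with
  | zero => simp
  | succ n ih =>
    rw [sum_range_succ, ih, z1_term hb (by omega)]
    have : j + (n + 1) = j + n + 1 := by ring
    rw [this]
    ring

theorem exists_super (b : ℕ) (hb : 1 ≤ b) : ∃ (p : ℕ → ℝ≥0∞) (κ : ℝ≥0∞), κ ≠ ⊤ ∧ (∀ l, p l ≤ 1) ∧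
    (∀ l, 1 ≤ κ * p l) ∧ ∀ j, b + 1 ≤ j → (b : ℝ≥0∞) ^ 2 * P 2 p j ≤ ENNReal.ofReal (rb b) * p j := by
  obtain ⟨m, hm, hml⟩ := z1_bd b
  refine ⟨fun l => ENNReal.ofReal (z1_q b l), (ENNReal.ofReal m)⁻¹,
    ENNReal.inv_ne_top.2 (ENNReal.ofReal_pos.2 hm).ne', fun l => ?_, fun l => ?_, fun j hj => ?_⟩
  · rw [← ENNReal.ofReal_one]
    exact ENNReal.ofReal_le_ofReal (z1_le b l)
  · rw [← ENNReal.inv_mul_cancel (ENNReal.ofReal_pos.2 hm).ne' ENNReal.ofReal_ne_top]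
    exact mul_le_mul' le_rfl (ENNReal.ofReal_le_ofReal (hml l))
  · unfold P
    rw [← ENNReal.tsum_mul_left]
    refine ENNReal.tsum_le_of_sum_range_le fun n => ?_
    have h1 : ∀ i, (b : ℝ≥0∞) ^ 2 * ((((j + i : ℕ) : ℝ≥0∞) ^ 2)⁻¹ * ENNReal.ofReal (z1_q b (j + i))) =
        ENNReal.ofReal ((b : ℝ) ^ 2 * ((((j + i : ℕ) : ℝ) ^ 2)⁻¹ * z1_q b (j + i))) := by
      intro i
      have h2 : (0 : ℝ) < ((j + i : ℕ) : ℝ) := by exact_mod_cast (by omega : 0 < j + i)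
      rw [ENNReal.ofReal_mul (by positivity), ENNReal.ofReal_mul (by positivity),
        ENNReal.ofReal_inv_of_pos (by positivity), ENNReal.ofReal_pow (by positivity),
        ENNReal.ofReal_pow (by positivity), ENNReal.ofReal_natCast, ENNReal.ofReal_natCast]
    rw [sum_congr rfl fun i _ => h1 i, ← ENNReal.ofReal_sum_of_nonneg, z1_sum hb hj,
      ← ENNReal.ofReal_mul (rb_nonneg b)]
    · refine ENNReal.ofReal_le_ofReal ?_
      have h3 := z1_pos b (j + n)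
      have h4 := rb_nonneg b
      nlinarith
    · intro i _
      have := z1_pos b (j + i)
      positivity

end Pool.Agent.ZO
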