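import Pool.Agent.LibZO31.Z1

/-!
[ZO Z2] decay above the base level.

PLAN.  Take `p, κ` from `exists_super`.  Claim: for `u` in `W023`, `j ≥ b + 1`: `b^(wt u) * ph u p j ≤ ρ^(length u) * p j`, `ρ = ENNReal.ofReal (rb b) ≤ 1`, by induction on `u`
(`ph (a :: u) p j = op a (ph u p) j`, `op_mono`, `op_smul`).  Letter `2`: `exists_super`.  Letter `3`: `P 3 f j ≤ j⁻¹ * P 2 f j` (`P3_le`), and `b * j⁻¹ ≤ ρ`, so
`b^3 P 3 p j ≤ ρ * ρ * p j ≤ ρ * p j`.  Letter `0` (weight `5`): `Q_le_PP`, then letters `3` and `2`.  (Apply the one-letter bounds to `f = p`, after pulling the constant out.)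
Finally `f ≤ B ≤ B * κ * p` on `l ≥ b + 1` (`1 ≤ κ * p l`), `ph_mono`, `ph_smul`, `p j ≤ 1`.
Compare `Pool.Agent.HF.ph_bd2` in `LibHF31/B4.lean`, the case `b = 1` with `2/3`.
-/

set_option autoImplicit false

namespace Pool.Agent.ZO

open scoped ENNReal
open Finset
open Pool.Agent.HF

private theorem z2_cons (a : ℕ) (u : List ℕ) (f : ℕ → ℝ≥0∞) : ph (a :: u) f = op a (ph u f) := rfl

private theorem z2_op0 (f : ℕ → ℝ≥0∞) : op 0 f = Q f := by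
  simp [op]

private theorem z2_op2 (f : ℕ → ℝ≥0∞) : op 2 f = P 2 f := by
  simp [op]

private theorem z2_op3 (f : ℕ → ℝ≥0∞) : op 3 f = P 3 f := by
  simp [op]

private theorem z2_rho (b : ℕ) : ENNReal.ofReal (rb b) ≤ 1 := by
  rw [← ENNReal.ofReal_one]
  exact ENNReal.ofReal_le_ofReal (rb_le_one b)

private theorem z2_inv {b j : ℕ} (hj : b + 1 ≤ j) :
    (b : ℝ≥0∞) * (j : ℝ≥0∞)⁻¹ ≤ ENNReal.ofReal (rb b) := by
  have h1 : ENNReal.ofReal (rb b) = (b : ℝ≥0∞) * ((b + 1 : ℕ) : ℝ≥0∞)⁻¹ := by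
    unfold rb
    rw [div_eq_mul_inv, ENNReal.ofReal_mul (by positivity), ENNReal.ofReal_inv_of_pos (by positivity),
      ENNReal.ofReal_natCast]
    congr 2
    rw [← Nat.cast_succ, ENNReal.ofReal_natCast]
  rw [h1]
  refine mul_le_mul' le_rfl (ENNReal.inv_le_inv.2 ?_)
  exact_mod_cast hj

/-- The letter `3`. -/
private theorem z2_three {b : ℕ} {p : ℕ → ℝ≥0∞}
    (hp : ∀ j, b + 1 ≤ j → (b : ℝ≥0∞) ^ 2 * P 2 p j ≤ ENNReal.ofReal (rb b) * p j) {j : ℕ}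
    (hj : b + 1 ≤ j) : (b : ℝ≥0∞) ^ 3 * P 3 p j ≤ ENNReal.ofReal (rb b) * p j := by
  calc (b : ℝ≥0∞) ^ 3 * P 3 p j ≤ (b : ℝ≥0∞) ^ 3 * ((j : ℝ≥0∞)⁻¹ * P 2 p j) :=
        mul_le_mul' le_rfl (P3_le p j (by omega))
    _ = (b : ℝ≥0∞) * (j : ℝ≥0∞)⁻¹ * ((b : ℝ≥0∞) ^ 2 * P 2 p j) := by ring
    _ ≤ 1 * (ENNReal.ofReal (rb b) * p j) :=
        mul_le_mul' ((z2_inv hj).trans (z2_rho b)) (hp j hj)
    _ = ENNReal.ofReal (rb b) * p j := one_mul _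

/-- One letter. -/
private theorem z2_letter {b : ℕ} {p : ℕ → ℝ≥0∞}
    (hp : ∀ j, b + 1 ≤ j → (b : ℝ≥0∞) ^ 2 * P 2 p j ≤ ENNReal.ofReal (rb b) * p j) {a : ℕ}
    (ha : a = 0 ∨ a = 2 ∨ a = 3) {j : ℕ} (hj : b + 1 ≤ j) :
    (b : ℝ≥0∞) ^ (if a = 0 then 5 else a) * op a p j ≤ ENNReal.ofReal (rb b) * p j := by
  rcases ha with rfl | rfl | rfl
  · rw [if_pos rfl, z2_op0]
    calc (b : ℝ≥0∞) ^ 5 * Q p j ≤ (b : ℝ≥0∞) ^ 5 * P 3 (P 2 p) j :=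
          mul_le_mul' le_rfl (Q_le_PP p j (by omega))
      _ = (b : ℝ≥0∞) ^ 3 * ((b : ℝ≥0∞) ^ 2 * op 3 (P 2 p) j) := by rw [z2_op3]; ring
      _ = (b : ℝ≥0∞) ^ 3 * op 3 (fun l => (b : ℝ≥0∞) ^ 2 * P 2 p l) j := by rw [op_smul]
      _ ≤ (b : ℝ≥0∞) ^ 3 * op 3 (fun l => ENNReal.ofReal (rb b) * p l) j :=
          mul_le_mul' le_rfl (op_mono fun l hl => hp l (hj.trans hl))
      _ = ENNReal.ofReal (rb b) * ((b : ℝ≥0∞) ^ 3 * P 3 p j) := by rw [op_smul, z2_op3]; ring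
      _ ≤ ENNReal.ofReal (rb b) * (ENNReal.ofReal (rb b) * p j) :=
          mul_le_mul' le_rfl (z2_three hp hj)
      _ ≤ ENNReal.ofReal (rb b) * (1 * p j) := mul_le_mul' le_rfl (mul_le_mul' (z2_rho b) le_rfl)
      _ = ENNReal.ofReal (rb b) * p j := by rw [one_mul]
  · rw [if_neg (by norm_num), z2_op2]
    exact hp j hj
  · rw [if_neg (by norm_num), z2_op3]
    exact z2_three hp hj

/-- The words, for the supersolution. -/
private theorem z2_word {b : ℕ} {p : ℕ → ℝ≥0∞}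
    (hp : ∀ j, b + 1 ≤ j → (b : ℝ≥0∞) ^ 2 * P 2 p j ≤ ENNReal.ofReal (rb b) * p j) {u : List ℕ}
    (hu : W023 u) {j : ℕ} (hj : b + 1 ≤ j) :
    (b : ℝ≥0∞) ^ wt u * ph u p j ≤ ENNReal.ofReal (rb b) ^ u.length * p j := by
  induction u generalizing j with
  | nil =>
    rw [wt_nil, pow_zero, List.length_nil, pow_zero]
    exact le_rfl
  | cons a u ih =>
    have hu' : W023 u := fun c hc => hu c (List.mem_cons_of_mem a hc)
    rw [wt_cons, z2_cons, List.length_cons]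
    calc (b : ℝ≥0∞) ^ ((if a = 0 then 5 else a) + wt u) * op a (ph u p) j
        = (b : ℝ≥0∞) ^ (if a = 0 then 5 else a) *
            op a (fun l => (b : ℝ≥0∞) ^ wt u * ph u p l) j := by rw [op_smul, pow_add]; ring
      _ ≤ (b : ℝ≥0∞) ^ (if a = 0 then 5 else a) *
            op a (fun l => ENNReal.ofReal (rb b) ^ u.length * p l) j :=
          mul_le_mul' le_rfl (op_mono fun l hl => ih hu' (hj.trans hl))
      _ = ENNReal.ofReal (rb b) ^ u.length *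
            ((b : ℝ≥0∞) ^ (if a = 0 then 5 else a) * op a p j) := by rw [op_smul]; ring
      _ ≤ ENNReal.ofReal (rb b) ^ u.length * (ENNReal.ofReal (rb b) * p j) :=
          mul_le_mul' le_rfl (z2_letter hp (hu a (by simp)) hj)
      _ = ENNReal.ofReal (rb b) ^ (u.length + 1) * p j := by ring

theorem ph_bdb (b : ℕ) (hb : 1 ≤ b) : ∃ κ : ℝ≥0∞, κ ≠ ⊤ ∧ ∀ {u : List ℕ}, W023 u → ∀ {f : ℕ → ℝ≥0∞} {B : ℝ≥0∞},
    (∀ l, b + 1 ≤ l → f l ≤ B) → ∀ {j : ℕ}, b + 1 ≤ j →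
      (b : ℝ≥0∞) ^ wt u * ph u f j ≤ κ * ENNReal.ofReal (rb b) ^ u.length * B := by
  obtain ⟨p, κ, hκ, hp1, hκp, hp⟩ := exists_super b hb
  refine ⟨κ, hκ, fun {u} hu {f B} hf {j} hj => ?_⟩
  have h1 : ph u f j ≤ B * κ * ph u p j := by
    refine ph_le_smul u fun l hl => ?_
    calc f l ≤ B * 1 := by rw [mul_one]; exact hf l (hj.trans hl)
      _ ≤ B * (κ * p l) := mul_le_mul' le_rfl (hκp l)
      _ = B * κ * p l := by ring
  calc (b : ℝ≥0∞) ^ wt u * ph u f j ≤ (b : ℝ≥0∞) ^ wt u * (B * κ * ph u p j) :=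
        mul_le_mul' le_rfl h1
    _ = B * κ * ((b : ℝ≥0∞) ^ wt u * ph u p j) := by ring
    _ ≤ B * κ * (ENNReal.ofReal (rb b) ^ u.length * p j) := mul_le_mul' le_rfl (z2_word hp hu hj)
    _ ≤ B * κ * (ENNReal.ofReal (rb b) ^ u.length * 1) :=
        mul_le_mul' le_rfl (mul_le_mul' le_rfl (hp1 j))
    _ = κ * ENNReal.ofReal (rb b) ^ u.length * B := by ring

end Pool.Agent.ZO
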