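import Pool.Agent.LibZO31.Z2

/-!
[ZO Z3] the beginning of a chain is irrelevant, base level `b`.

PLAN (compare `LibHF31/B4.lean`: `P_one`, `ph_begin`, `ph_begin'`, the case `b = 1`).
`P_base`: first term of the series, `P n f b = (b^n)⁻¹ * f b + P n f (b + 1)` (`tsum_eq_zero_add`; reindex `b + (i + 1) = (b + 1) + i`).
`ph_beginb'`: induction on `v`, `b^n * P n f b ≥ f b`.
`ph_beginb`: with `κ` from `ph_bdb`: `b^(wt (a :: v)) * ph (a :: v) g b = b^(wt v) * ph v g b + b^(wt (a :: v)) * ph (a :: v) g (b + 1)` (`a = 2, 3`), the last term is at most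
`κ ρ^(length v + 1) M`, and `∑_{t ≥ 1} ρ^t = ρ / (1 - ρ) = b`.
-/

set_option autoImplicit false

namespace Pool.Agent.ZO

open scoped ENNReal
open Finset
open Pool.Agent.HF

theorem P_base (n b : ℕ) (f : ℕ → ℝ≥0∞) : P n f b = ((b : ℝ≥0∞) ^ n)⁻¹ * f b + P n f (b + 1) := by
  rw [P, tsum_eq_zero_add' ENNReal.summable, P]
  congr 1
  refine tsum_congr fun i => ?_
  have h1 : b + (i + 1) = b + 1 + i := by ring
  rw [h1]

private theorem z3_op {a : ℕ} (ha : a = 2 ∨ a = 3) (f : ℕ → ℝ≥0∞) : op a f = P a f := by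
  rcases ha with rfl | rfl <;> simp [op]

private theorem z3_cons (a : ℕ) (u : List ℕ) (f : ℕ → ℝ≥0∞) : ph (a :: u) f = op a (ph u f) := rfl

private theorem z3_wt {a : ℕ} (ha : a = 2 ∨ a = 3) (v : List ℕ) : wt (a :: v) = a + wt v := by
  rw [wt_cons]
  rcases ha with rfl | rfl <;> simp

private theorem z3_mul {b : ℕ} (hb : 1 ≤ b) (a : ℕ) : (b : ℝ≥0∞) ^ a * ((b : ℝ≥0∞) ^ a)⁻¹ = 1 := by
  refine ENNReal.mul_inv_cancel (pow_ne_zero _ ?_) (ENNReal.pow_ne_top (ENNReal.natCast_ne_top b))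
  exact_mod_cast (by omega : b ≠ 0)

private theorem z3_step {b : ℕ} (hb : 1 ≤ b) {a : ℕ} (ha : a = 2 ∨ a = 3) (v : List ℕ) (g : ℕ → ℝ≥0∞) :
    (b : ℝ≥0∞) ^ wt (a :: v) * ph (a :: v) g b =
      (b : ℝ≥0∞) ^ wt v * ph v g b + (b : ℝ≥0∞) ^ wt (a :: v) * ph (a :: v) g (b + 1) := by
  have h1 : ph (a :: v) g b = ((b : ℝ≥0∞) ^ a)⁻¹ * ph v g b + ph (a :: v) g (b + 1) := by
    rw [z3_cons, z3_op ha]
    exact P_base a b _
  rw [h1, mul_add]
  congr 1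
  rw [z3_wt ha, pow_add]
  calc (b : ℝ≥0∞) ^ a * (b : ℝ≥0∞) ^ wt v * (((b : ℝ≥0∞) ^ a)⁻¹ * ph v g b)
      = ((b : ℝ≥0∞) ^ a * ((b : ℝ≥0∞) ^ a)⁻¹) * ((b : ℝ≥0∞) ^ wt v * ph v g b) := by ring
    _ = (b : ℝ≥0∞) ^ wt v * ph v g b := by rw [z3_mul hb, one_mul]

theorem ph_beginb' {b : ℕ} (hb : 1 ≤ b) {v : List ℕ} (hv : W23 v) (g : ℕ → ℝ≥0∞) :
    g b ≤ (b : ℝ≥0∞) ^ wt v * ph v g b := by
  induction v with
  | nil =>
    rw [wt_nil, pow_zero, one_mul]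
    exact le_rfl
  | cons a v ih =>
    have hv' : W23 v := fun c hc => hv c (List.mem_cons_of_mem a hc)
    have ha := hv a (by simp)
    rw [z3_step hb ha]
    exact (ih hv').trans le_self_add

private theorem z3_sum (b N : ℕ) :
    (∑ t ∈ range N, ENNReal.ofReal (rb b) ^ (t + 1)) + (b : ℝ≥0∞) * ENNReal.ofReal (rb b) ^ N = b := by
  induction N with
  | zero => simp
  | succ N ih =>
    have h3 : ((b : ℝ≥0∞) + 1) * ENNReal.ofReal (rb b) = b := by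
      have h4 : ((b : ℝ≥0∞) + 1) = ENNReal.ofReal ((b : ℝ) + 1) := by
        rw [ENNReal.ofReal_add (by positivity) (by norm_num), ENNReal.ofReal_natCast, ENNReal.ofReal_one]
      rw [h4, ← ENNReal.ofReal_mul (by positivity)]
      have h5 : ((b : ℝ) + 1) * rb b = b := by
        unfold rb
        field_simp
      rw [h5, ENNReal.ofReal_natCast]
    rw [Finset.sum_range_succ, add_assoc]
    have h1 : ENNReal.ofReal (rb b) ^ (N + 1) + (b : ℝ≥0∞) * ENNReal.ofReal (rb b) ^ (N + 1)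
        = (b : ℝ≥0∞) * ENNReal.ofReal (rb b) ^ N := by
      calc ENNReal.ofReal (rb b) ^ (N + 1) + (b : ℝ≥0∞) * ENNReal.ofReal (rb b) ^ (N + 1)
          = (((b : ℝ≥0∞) + 1) * ENNReal.ofReal (rb b)) * ENNReal.ofReal (rb b) ^ N := by ring
        _ = _ := by rw [h3]
    rw [h1, ih]

theorem ph_beginb (b : ℕ) (hb : 1 ≤ b) : ∃ κ : ℝ≥0∞, κ ≠ ⊤ ∧ ∀ {v : List ℕ}, W23 v → ∀ {g : ℕ → ℝ≥0∞} {M : ℝ≥0∞},
    (∀ l, b + 1 ≤ l → g l ≤ M) → (b : ℝ≥0∞) ^ wt v * ph v g b ≤ g b + κ * M := by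
  obtain ⟨κ, hκ, hbd⟩ := ph_bdb b hb
  refine ⟨κ * b, ENNReal.mul_ne_top hκ (ENNReal.natCast_ne_top b), ?_⟩
  intro v hv g M hg
  have key : ∀ {v : List ℕ}, W23 v → (b : ℝ≥0∞) ^ wt v * ph v g b ≤
      g b + κ * (∑ t ∈ range v.length, ENNReal.ofReal (rb b) ^ (t + 1)) * M := by
    intro v hv
    induction v with
    | nil =>
      rw [wt_nil, pow_zero, one_mul]
      exact le_self_add
    | cons a v ih =>
      have hv' : W23 v := fun c hc => hv c (List.mem_cons_of_mem a hc)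
      have ha := hv a (by simp)
      have h2 : (b : ℝ≥0∞) ^ wt (a :: v) * ph (a :: v) g (b + 1) ≤
          κ * ENNReal.ofReal (rb b) ^ (v.length + 1) * M := hbd hv.to0 hg le_rfl
      rw [z3_step hb ha, List.length_cons, Finset.sum_range_succ, mul_add, add_mul, ← add_assoc]
      exact add_le_add (ih hv') h2
  refine (key hv).trans ?_
  gcongr
  calc ∑ t ∈ range v.length, ENNReal.ofReal (rb b) ^ (t + 1)
      ≤ (∑ t ∈ range v.length, ENNReal.ofReal (rb b) ^ (t + 1)) + (b : ℝ≥0∞) * ENNReal.ofReal (rb b) ^ v.length :=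
        le_self_add
    _ = b := z3_sum b _

end Pool.Agent.ZO
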