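import Pool.Agent.LibZO31.Z3

/-!
[ZO Z5] commutator, lower bound, domination for `Sb`.

PLAN.  `Sb_comm`: as `Pool.Agent.HF.S_comm` (`LibHF31/B5.lean`) at the level `b` instead of `1`; all three words have the same weight (`wt_append`, `wt_cons`: `3 + 2 = 2 + 3 = 5`).
`Sb_lower`: as `S_lower` (`LibHF31/B6.lean`): `ph_lower` at the level `b`, `ph_beginb'`, and `b^(wt u) ≥ 1`.
`Sb_dom`: as `S_dom` (`LibHF31/B7.lean`): `ph_le_smul0`, `tw_dom` (`l ≥ b + k ≥ k + 1`), and `wt (tw c F (r+1)) ≤ wt (tw c F r) + 3` for `r + 1 ≤ |c| + 3 + |F|` (`wt_tw_le`, cases as in `tw_dom`: one letter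
`2` or `3` more; `c ++ [3]` after `c ++ [2]`: one more; `c ++ [0]` after `c ++ [3]`: `5 - 3 = 2` more).
-/

set_option autoImplicit false

namespace Pool.Agent.ZO

open scoped ENNReal
open Finset
open Pool.Agent.HF

theorem z5_cong (u : List ℕ) {b : ℕ} {f g : ℕ → ℝ≥0∞} (h : ∀ l, b ≤ l → f l = g l) :
    ph u f b = ph u g b :=
  le_antisymm (ph_mono u fun l hl => (h l hl).le) (ph_mono u fun l hl => (h l hl).ge)

theorem Sb_comm {b : ℕ} (hb : 1 ≤ b) {u v : List ℕ} (hu : W023 u) (hv : W023 v) :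
    Sb b (u ++ 3 :: 2 :: v) = Sb b (u ++ 2 :: 3 :: v) + Sb b (u ++ 0 :: v) := by
  have h32 : ph (u ++ 3 :: 2 :: v) (fun _ => 1) b = ph u (P 3 (P 2 (ph v fun _ => 1))) b := by
    rw [ph_append]
    simp [ph, op]
  have h23 : ph (u ++ 2 :: 3 :: v) (fun _ => 1) b = ph u (P 2 (P 3 (ph v fun _ => 1))) b := by
    rw [ph_append]
    simp [ph, op]
  have h0 : ph (u ++ 0 :: v) (fun _ => 1) b = ph u (Q (ph v fun _ => 1)) b := by
    rw [ph_append]
    simp [ph, op]
  have hw23 : W023 (u ++ 2 :: 3 :: v) := hu.append (by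
    intro a ha
    simp only [List.mem_cons] at ha
    rcases ha with h | h | h
    · exact Or.inr (Or.inl h)
    · exact Or.inr (Or.inr h)
    · exact hv a h)
  have hf1 : ph (u ++ 2 :: 3 :: v) (fun _ => 1) b < ⊤ := ph_fin hw23 hb
  have hf2 : ph (u ++ 0 :: v) (fun _ => 1) b < ⊤ := ph_fin (hu.append hv.cons0) hb
  have hmain : ph (u ++ 3 :: 2 :: v) (fun _ => 1) b =
      ph (u ++ 2 :: 3 :: v) (fun _ => 1) b + ph (u ++ 0 :: v) (fun _ => 1) b := by
    rw [h32, h23, h0, ← ph_add]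
    exact z5_cong u fun l hl => comm _ l (hb.trans hl)
  have hw1 : wt (u ++ 3 :: 2 :: v) = wt (u ++ 0 :: v) := by
    simp only [wt_append, wt_cons]
    norm_num
    ring
  have hw2 : wt (u ++ 2 :: 3 :: v) = wt (u ++ 0 :: v) := by
    simp only [wt_append, wt_cons]
    norm_num
    ring
  unfold Sb
  rw [hmain, ENNReal.toReal_add hf1.ne hf2.ne, hw1, hw2, mul_add]

theorem Sb_lower {b : ℕ} (hb : 1 ≤ b) {v u : List ℕ} (hv : W23 v) (hu : W023 u) {K : ℕ} (hK : b + u.count 0 ≤ K) :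
    (((K : ℝ) ^ 6)⁻¹) ^ u.length ≤ Sb b (v ++ u) := by
  have h1 := ph_lower hu (fun _ => 1) hb hK
  rw [mul_one] at h1
  have h2 : (((K : ℝ≥0∞) ^ 6)⁻¹) ^ u.length ≤ (b : ℝ≥0∞) ^ wt v * ph (v ++ u) (fun _ => 1) b := by
    rw [ph_append]
    exact h1.trans (ph_beginb' hb hv _)
  have hfin : ph (v ++ u) (fun _ => 1) b ≠ ⊤ := (ph_fin (hv.to0.append hu) hb).ne
  have hpow : ((b : ℝ≥0∞) ^ wt v) ≠ ⊤ := ENNReal.pow_ne_top (ENNReal.natCast_ne_top b)
  have h3 := ENNReal.toReal_mono (ENNReal.mul_ne_top hpow hfin) h2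
  rw [ENNReal.toReal_pow, ENNReal.toReal_inv, ENNReal.toReal_pow, ENNReal.toReal_natCast,
    ENNReal.toReal_mul, ENNReal.toReal_pow, ENNReal.toReal_natCast] at h3
  refine h3.trans ?_
  unfold Sb
  refine mul_le_mul_of_nonneg_right ?_ ENNReal.toReal_nonneg
  have hb1 : (1 : ℝ) ≤ b := by exact_mod_cast hb
  refine pow_le_pow_right₀ hb1 ?_
  rw [wt_append]
  omega

theorem wt_tw_le {c F : List ℕ} (hc : W23 c) (hF : W23 F) {r : ℕ} (hr : r + 1 ≤ c.length + 3 + F.length) :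
    wt (tw c F r) ≤ wt (tw c F (r + 1)) ∧ wt (tw c F (r + 1)) ≤ wt (tw c F r) + 3 := by
  have hext : ∀ (u : List ℕ) (a : ℕ), a = 2 ∨ a = 3 → wt u ≤ wt (u ++ [a]) ∧ wt (u ++ [a]) ≤ wt u + 3 := by
    intro u a ha
    rw [wt_append, wt_cons, wt_nil]
    rcases ha with rfl | rfl <;> norm_num
  rcases Nat.lt_or_ge r c.length with h1 | h1
  · have e1 : tw c F r = c.take r := by
      unfold tw
      rw [if_pos h1.le]
    have e2 : tw c F (r + 1) = c.take r ++ [(c)[r]] := by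
      unfold tw
      rw [if_pos (Nat.succ_le_of_lt h1), List.take_append_getElem]
    rw [e1, e2]
    exact hext _ _ (hc _ (List.getElem_mem h1))
  rcases Nat.eq_or_lt_of_le h1 with h2 | h2
  · have e1 : tw c F r = c := by
      unfold tw
      rw [if_pos h2.ge, ← h2, List.take_length]
    have e2 : tw c F (r + 1) = c ++ [2] := by
      unfold tw
      rw [if_neg (by omega), if_pos (by omega)]
    rw [e1, e2]
    exact hext _ _ (Or.inl rfl)
  rcases Nat.eq_or_lt_of_le (Nat.succ_le_of_lt h2) with h3 | h3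
  · have e1 : tw c F r = c ++ [2] := by
      unfold tw
      rw [if_neg (by omega), if_pos (by omega)]
    have e2 : tw c F (r + 1) = c ++ [3] := by
      unfold tw
      rw [if_neg (by omega), if_neg (by omega), if_pos (by omega)]
    rw [e1, e2, wt_append, wt_append, wt_cons, wt_cons, wt_nil]
    norm_num
  rcases Nat.eq_or_lt_of_le (Nat.succ_le_of_lt h3) with h4 | h4
  · have e1 : tw c F r = c ++ [3] := by
      unfold tw
      rw [if_neg (by omega), if_neg (by omega), if_pos (by omega)]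
    have e2 : tw c F (r + 1) = c ++ [0] := by
      unfold tw
      rw [if_neg (by omega), if_neg (by omega), if_neg (by omega),
        show r + 1 - c.length - 3 = 0 by omega, List.take_zero]
    rw [e1, e2, wt_append, wt_append, wt_cons, wt_cons, wt_nil]
    norm_num
  · obtain ⟨s, hs⟩ : ∃ s, s = r - c.length - 3 := ⟨_, rfl⟩
    have hsF : s < F.length := by omega
    have e1 : tw c F r = c ++ 0 :: F.take s := by
      unfold tw
      rw [if_neg (by omega), if_neg (by omega), if_neg (by omega), ← hs]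
    have e2 : tw c F (r + 1) = (c ++ 0 :: F.take s) ++ [F[s]] := by
      unfold tw
      rw [if_neg (by omega), if_neg (by omega), if_neg (by omega),
        show r + 1 - c.length - 3 = s + 1 by omega, ← List.take_append_getElem hsF]
      simp
    rw [e1, e2]
    exact hext _ _ (hF _ (List.getElem_mem hsF))

theorem z5_count {u : List ℕ} (hu : W23 u) : u.count 0 = 0 := by
  refine List.count_eq_zero.2 fun h => ?_
  rcases hu 0 h with h | h <;> omega

theorem Sb_dom {b : ℕ} (hb : 1 ≤ b) {v c F : List ℕ} {αs : List (List ℕ)} (hv : W23 v) (hα : ∀ α ∈ αs, W23 α)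
    (hc : W23 c) (hF : W23 F) {r : ℕ} (hr : r + 1 ≤ c.length + 3 + F.length) :
    Sb b (v ++ Zw αs ++ tw c F (r + 1)) ≤ 2 * (b : ℝ) ^ 3 / ((αs.length : ℝ) + 1) * Sb b (v ++ Zw αs ++ tw c F r) := by
  have hcount : (v ++ Zw αs).count 0 = αs.length := by
    rw [List.count_append, z5_count hv, count_Zw hα, zero_add]
  have key : ph (v ++ Zw αs ++ tw c F (r + 1)) (fun _ => 1) b ≤
      2 * ((αs.length + 1 : ℕ) : ℝ≥0∞)⁻¹ * ph (v ++ Zw αs ++ tw c F r) (fun _ => 1) b := by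
    rw [ph_append (v ++ Zw αs), ph_append (v ++ Zw αs)]
    refine ph_le_smul0 (v ++ Zw αs) fun l hl => ?_
    rw [hcount] at hl
    refine (tw_dom hc hF hr (l := l) (by omega)).trans ?_
    have h5 : (l : ℝ≥0∞)⁻¹ ≤ ((αs.length + 1 : ℕ) : ℝ≥0∞)⁻¹ :=
      ENNReal.inv_le_inv.2 (by exact_mod_cast (by omega : αs.length + 1 ≤ l))
    gcongr
  have hfin : ph (v ++ Zw αs ++ tw c F r) (fun _ => 1) b < ⊤ :=
    ph_fin ((hv.to0.append (W023_Zw hα)).append (W023_tw hc hF r)) hb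
  have hn : ((αs.length + 1 : ℕ) : ℝ≥0∞)⁻¹ ≠ ⊤ := by
    rw [ENNReal.inv_ne_top]
    exact Nat.cast_ne_zero.2 (Nat.succ_ne_zero _)
  have h2 : (2 : ℝ≥0∞) * ((αs.length + 1 : ℕ) : ℝ≥0∞)⁻¹ ≠ ⊤ := ENNReal.mul_ne_top (by norm_num) hn
  have h3 := ENNReal.toReal_mono (ENNReal.mul_ne_top h2 hfin.ne) key
  rw [ENNReal.toReal_mul, ENNReal.toReal_mul, ENNReal.toReal_inv, ENNReal.toReal_natCast] at h3
  have h4 : (ENNReal.toReal 2) * ((αs.length + 1 : ℕ) : ℝ)⁻¹ = 2 / ((αs.length : ℝ) + 1) := by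
    rw [ENNReal.toReal_ofNat]
    push_cast
    rw [div_eq_mul_inv]
  rw [h4] at h3
  have hwt : wt (v ++ Zw αs ++ tw c F (r + 1)) ≤ wt (v ++ Zw αs ++ tw c F r) + 3 := by
    rw [wt_append, wt_append (v ++ Zw αs)]
    have := (wt_tw_le hc hF hr).2
    omega
  have hb1 : (1 : ℝ) ≤ b := by exact_mod_cast hb
  have hpow : (b : ℝ) ^ wt (v ++ Zw αs ++ tw c F (r + 1)) ≤
      (b : ℝ) ^ wt (v ++ Zw αs ++ tw c F r) * (b : ℝ) ^ 3 := by
    rw [← pow_add]
    exact pow_le_pow_right₀ hb1 hwt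
  unfold Sb
  calc (b : ℝ) ^ wt (v ++ Zw αs ++ tw c F (r + 1)) *
        (ph (v ++ Zw αs ++ tw c F (r + 1)) (fun _ => 1) b).toReal
      ≤ ((b : ℝ) ^ wt (v ++ Zw αs ++ tw c F r) * (b : ℝ) ^ 3) *
        (2 / ((αs.length : ℝ) + 1) * (ph (v ++ Zw αs ++ tw c F r) (fun _ => 1) b).toReal) :=
        mul_le_mul hpow h3 ENNReal.toReal_nonneg (by positivity)
    _ = _ := by ring

end Pool.Agent.ZO
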